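import Mathlib

/-!
# MP_edf6ee_al: automorphisms of the field act on a finite dimensional algebra
-/

set_option autoImplicit false
set_option linter.unusedSectionVars false

namespace Pool.Agent.Work.MP_edf6ee_al.AU

open scoped Cardinal

section

variable {K : Type} [Field K] {R : Type} [Ring R] [Algebra K R] {ι : Type} [Fintype ι]
  (b : Module.Basis ι K R)

/-- apply `τ` to the coordinates -/
noncomputable def twf (τ : K → K) (r : R) : R := ∑ k, τ (b.repr r k) • b k

theorem repr_twf (τ : K → K) (r : R) (k : ι) : b.repr (twf b τ r) k = τ (b.repr r k) := by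
  classical
  unfold twf
  rw [map_sum, Finsupp.finsetSum_apply, Finset.sum_eq_single k]
  · rw [map_smul, b.repr_self, Finsupp.smul_apply, Finsupp.single_eq_same, smul_eq_mul, mul_one]
  · intro j _ hj
    rw [map_smul, b.repr_self, Finsupp.smul_apply, Finsupp.single_eq_of_ne (Ne.symm hj),
      smul_zero]
  · simp

theorem twf_ext {r s : R} (h : ∀ k, b.repr r k = b.repr s k) : r = s :=
  b.repr.injective (Finsupp.ext h)

theorem twf_add (τ : K →+* K) (r s : R) : twf b τ (r + s) = twf b τ r + twf b τ s := by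
  apply twf_ext b
  intro k
  rw [map_add, Finsupp.add_apply, repr_twf, repr_twf, repr_twf, map_add, Finsupp.add_apply, map_add]

theorem twf_smul (τ : K →+* K) (a : K) (r : R) : twf b τ (a • r) = τ a • twf b τ r := by
  apply twf_ext b
  intro k
  rw [map_smul, Finsupp.smul_apply, repr_twf, repr_twf, map_smul, Finsupp.smul_apply, smul_eq_mul,
    smul_eq_mul, map_mul]

theorem twf_sum (τ : K →+* K) {κ : Type} (s : Finset κ) (f : κ → R) :
    twf b τ (∑ i ∈ s, f i) = ∑ i ∈ s, twf b τ (f i) := by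
  classical
  induction s using Finset.induction_on with
  | empty =>
    rw [Finset.sum_empty, Finset.sum_empty]
    apply twf_ext b
    intro k
    rw [repr_twf, map_zero, Finsupp.zero_apply, map_zero]
  | insert a s ha ih => rw [Finset.sum_insert ha, Finset.sum_insert ha, twf_add, ih]

theorem twf_mul (τ : K →+* K)
    (hc : ∀ i j k, τ (b.repr (b i * b j) k) = b.repr (b i * b j) k)
    (r s : R) : twf b τ (r * s) = twf b τ r * twf b τ s := by
  have h1 : ∀ i j, twf b τ (b i * b j) = b i * b j := by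
    intro i j
    apply twf_ext b
    intro k
    rw [repr_twf, hc]
  have h2 : r * s = ∑ i, ∑ j, (b.repr r i * b.repr s j) • (b i * b j) := by
    conv_lhs => rw [← b.sum_repr r, ← b.sum_repr s]
    rw [Finset.sum_mul_sum]
    refine Finset.sum_congr rfl fun i _ => Finset.sum_congr rfl fun j _ => ?_
    rw [smul_mul_smul_comm]
  have h3 : twf b τ r * twf b τ s =
      ∑ i, ∑ j, (τ (b.repr r i) * τ (b.repr s j)) • (b i * b j) := by
    unfold twf
    rw [Finset.sum_mul_sum]
    refine Finset.sum_congr rfl fun i _ => Finset.sum_congr rfl fun j _ => ?_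
    rw [smul_mul_smul_comm]
  rw [h2, h3, twf_sum]
  refine Finset.sum_congr rfl fun i _ => ?_
  rw [twf_sum]
  refine Finset.sum_congr rfl fun j _ => ?_
  rw [twf_smul, h1, map_mul]

theorem twf_comp (τ τ' : K → K) (r : R) : twf b τ (twf b τ' r) = twf b (τ ∘ τ') r := by
  apply twf_ext b
  intro k
  rw [repr_twf, repr_twf, repr_twf]
  rfl

theorem twf_id (r : R) : twf b id r = r := by
  apply twf_ext b
  intro k
  rw [repr_twf]
  rfl

end

/-- the action -/
theorem exists_act (K : Type) [Field K] (R : Type) [Ring R] [Algebra K R] [Module.Finite K R] :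
    ∃ K₀ : Subfield K, #K₀ ≤ ℵ₀ ∧ ∃ act : (K ≃ₐ[K₀] K) →* RingAut R,
      (∀ τ k, act τ (algebraMap K R k) = algebraMap K R (τ k)) ∧
      ∀ r : R, ∃ c : Finset K, ∀ τ, (∀ k ∈ c, τ k = k) → act τ r = r := by
  classical
  let b := Module.finBasis K R
  let n := Module.finrank K R
  let cs : Fin n × Fin n × Fin n → K := fun p => b.repr (b p.1 * b p.2.1) p.2.2
  let us : Fin n → K := fun k => b.repr 1 k
  let K₀ : Subfield K := Subfield.closure (Set.range cs ∪ Set.range us)
  have hK₀ : #K₀ ≤ ℵ₀ := by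
    refine (Subfield.cardinalMk_closure_le_max _).trans (max_le ?_ le_rfl)
    exact Cardinal.le_aleph0_iff_set_countable.2
      ((Set.countable_range _).union (Set.countable_range _))
  have hfix : ∀ (τ : K ≃ₐ[K₀] K) (k : K), k ∈ K₀ → τ k = k := fun τ k hk =>
    τ.commutes (⟨k, hk⟩ : K₀)
  have hcs : ∀ (τ : K ≃ₐ[K₀] K) i j k, (τ : K →+* K) (b.repr (b i * b j) k) =
      b.repr (b i * b j) k := fun τ i j k =>
    hfix τ _ (Subfield.subset_closure (Or.inl ⟨(i, j, k), rfl⟩))
  have hus : ∀ (τ : K ≃ₐ[K₀] K) k, (τ : K →+* K) (b.repr 1 k) = b.repr 1 k := fun τ k =>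
    hfix τ _ (Subfield.subset_closure (Or.inr ⟨k, rfl⟩))
  have hone : ∀ τ : K ≃ₐ[K₀] K, twf b (τ : K →+* K) 1 = 1 := by
    intro τ
    apply twf_ext b
    intro k
    rw [repr_twf, hus]
  have hinv : ∀ (τ τ' : K ≃ₐ[K₀] K), τ * τ' = 1 → ∀ r, twf b (τ : K →+* K)
      (twf b (τ' : K →+* K) r) = r := by
    intro τ τ' h r
    rw [twf_comp]
    have h1 : ((τ : K →+* K) : K → K) ∘ ((τ' : K →+* K) : K → K) = id := by
      funext k
      exact congrArg (fun f : K ≃ₐ[K₀] K => f k) h
    rw [h1, twf_id]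
  let A : (K ≃ₐ[K₀] K) → RingAut R := fun τ =>
    { toFun := twf b (τ : K →+* K)
      invFun := twf b ((τ⁻¹ : K ≃ₐ[K₀] K) : K →+* K)
      left_inv := hinv _ _ (inv_mul_cancel τ)
      right_inv := hinv _ _ (mul_inv_cancel τ)
      map_mul' := twf_mul b _ (hcs τ)
      map_add' := twf_add b _ }
  have hA : ∀ τ r, A τ r = twf b (τ : K →+* K) r := fun τ r => rfl
  refine ⟨K₀, hK₀, ⟨⟨A, ?_⟩, ?_⟩, ?_, ?_⟩
  · refine RingEquiv.ext fun r => ?_
    rw [hA]
    exact twf_id b r
  · intro τ τ'
    refine RingEquiv.ext fun r => ?_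
    change A (τ * τ') r = A τ (A τ' r)
    rw [hA, hA, hA, twf_comp]
    rfl
  · intro τ k
    change twf b (τ : K →+* K) (algebraMap K R k) = algebraMap K R (τ k)
    rw [Algebra.algebraMap_eq_smul_one, twf_smul, hone, Algebra.algebraMap_eq_smul_one]
    rfl
  · intro r
    refine ⟨Finset.univ.image fun k => b.repr r k, fun τ hτ => ?_⟩
    change twf b (τ : K →+* K) r = r
    apply twf_ext b
    intro k
    rw [repr_twf]
    exact hτ _ (Finset.mem_image_of_mem _ (Finset.mem_univ k))

end Pool.Agent.Work.MP_edf6ee_al.AU
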