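import Pool.Agent.Work.MP_edf6ee_al.CP.Asm
import Pool.Agent.Work.MP_edf6ee_al.CP.I_ACE
import Pool.Agent.Work.MP_edf6ee_al.CP.I_ACP
import Pool.Agent.Work.MP_edf6ee_al.CP.I_ARITH
import Pool.Agent.Work.MP_edf6ee_al.CP.I_BAS
import Pool.Agent.Work.MP_edf6ee_al.CP.I_BR
import Pool.Agent.Work.MP_edf6ee_al.CP.I_CARD
import Pool.Agent.Work.MP_edf6ee_al.CP.I_CL1
import Pool.Agent.Work.MP_edf6ee_al.CP.I_CL2
import Pool.Agent.Work.MP_edf6ee_al.CP.I_CNT
import Pool.Agent.Work.MP_edf6ee_al.CP.I_DD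
import Pool.Agent.Work.MP_edf6ee_al.CP.I_DDAC
import Pool.Agent.Work.MP_edf6ee_al.CP.I_DDSAT
import Pool.Agent.Work.MP_edf6ee_al.CP.I_F0
import Pool.Agent.Work.MP_edf6ee_al.CP.I_FD
import Pool.Agent.Work.MP_edf6ee_al.CP.I_FL
import Pool.Agent.Work.MP_edf6ee_al.CP.I_FRM
import Pool.Agent.Work.MP_edf6ee_al.CP.I_FS
import Pool.Agent.Work.MP_edf6ee_al.CP.I_FT
import Pool.Agent.Work.MP_edf6ee_al.CP.I_FU
import Pool.Agent.Work.MP_edf6ee_al.CP.I_GEXT
import Pool.Agent.Work.MP_edf6ee_al.CP.I_HM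
import Pool.Agent.Work.MP_edf6ee_al.CP.I_HP
import Pool.Agent.Work.MP_edf6ee_al.CP.I_HULL
import Pool.Agent.Work.MP_edf6ee_al.CP.I_HZ
import Pool.Agent.Work.MP_edf6ee_al.CP.I_IRR
import Pool.Agent.Work.MP_edf6ee_al.CP.I_LINK
import Pool.Agent.Work.MP_edf6ee_al.CP.I_MAX
import Pool.Agent.Work.MP_edf6ee_al.CP.I_MR
import Pool.Agent.Work.MP_edf6ee_al.CP.I_NF
import Pool.Agent.Work.MP_edf6ee_al.CP.I_NU
import Pool.Agent.Work.MP_edf6ee_al.CP.I_PAC
import Pool.Agent.Work.MP_edf6ee_al.CP.I_REAL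
import Pool.Agent.Work.MP_edf6ee_al.CP.I_RES1
import Pool.Agent.Work.MP_edf6ee_al.CP.I_RES2
import Pool.Agent.Work.MP_edf6ee_al.CP.I_RET
import Pool.Agent.Work.MP_edf6ee_al.CP.I_RP
import Pool.Agent.Work.MP_edf6ee_al.CP.I_SL
import Pool.Agent.Work.MP_edf6ee_al.CP.I_SOC
import Pool.Agent.Work.MP_edf6ee_al.CP.I_SUB
import Pool.Agent.Work.MP_edf6ee_al.CP.I_TREE
import Pool.Agent.Work.MP_edf6ee_al.CP.I_W
import Pool.Agent.Work.MP_edf6ee_al.CP.I_WF
import Pool.Agent.Work.MP_edf6ee_al.AU.Main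

/-!
# MP_edf6ee_al: the twists of a closed point, all items put together
-/

set_option autoImplicit false

namespace Pool.Agent.Work.MP_edf6ee_al.AU

open scoped BigOperators Cardinal
open Pool.Agent.Work.MP_edf6ee_al.CP

theorem t_BAS : S_BAS := pr_BAS
theorem t_FT : S_FT := pr_FT
theorem t_NF : S_NF := pr_NF t_FT
theorem t_FRM : S_FRM := pr_FRM t_NF
theorem t_SUB : S_SUB := pr_SUB t_BAS
theorem t_CL1 : S_CL1 := pr_CL1 t_BAS t_FRM t_SUB
theorem t_ACE : S_ACE := pr_ACE t_CL1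
theorem t_ACP : S_ACP := pr_ACP
theorem t_ARITH : S_ARITH := pr_ARITH
theorem t_MAX : S_MAX := pr_MAX t_CL1
theorem t_MR : S_MR := pr_MR t_MAX t_CL1
theorem t_CL2 : S_CL2 := pr_CL2 t_NF t_SUB t_CL1
theorem t_SOC : S_SOC := pr_SOC t_MR t_CL1 t_CL2
theorem t_W : S_W := pr_W t_MAX t_SOC t_CL1
theorem t_WF : S_WF := pr_WF t_W t_CL1
theorem t_NU : S_NU := pr_NU t_WF t_MR t_CL1 t_CL2
theorem t_BR : S_BR := pr_BR t_NU t_MR t_CL1 t_CL2
theorem t_CARD : S_CARD := pr_CARD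
theorem t_CNT : S_CNT := pr_CNT t_MR t_CL1 t_CL2
theorem t_DDSAT : S_DDSAT := pr_DDSAT
theorem t_DD : S_DD := pr_DD t_DDSAT t_BAS
theorem t_DDAC : S_DDAC := pr_DDAC
theorem t_SL : S_SL := pr_SL t_CL1 t_CL2
theorem t_FD : S_FD := pr_FD t_CL1
theorem t_FU : S_FU := pr_FU t_CL1
theorem t_F0 : S_F0 := pr_F0 t_MAX t_SL t_FD t_FU t_CL1
theorem t_FS : S_FS := pr_FS t_FT
theorem t_GEXT : S_GEXT := pr_GEXT t_FS
theorem t_FL : S_FL := pr_FL t_GEXT t_CL1 t_NF t_SUB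
theorem t_HZ : S_HZ := pr_HZ t_ACE t_CL1
theorem t_HULL : S_HULL := pr_HULL t_ACE t_HZ t_CL1
theorem t_RET : S_RET := pr_RET
theorem t_HM : S_HM := pr_HM t_HULL t_GEXT t_RET t_CL1 t_NF t_BAS
theorem t_HP : S_HP := pr_HP t_HULL t_CL1
theorem t_IRR : S_IRR := pr_IRR t_GEXT t_CL1 t_NF t_BAS t_SUB t_FRM
theorem t_LINK : S_LINK := pr_LINK t_GEXT t_CL1 t_NF t_SUB
theorem t_PAC : S_PAC := pr_PAC
theorem t_RP : S_RP := pr_RP t_BAS
theorem t_REAL : S_REAL := pr_REAL t_RP t_DDAC t_DD t_HM t_PAC t_BAS t_FRM t_SUB t_CL1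
theorem t_RES1 : S_RES1 := pr_RES1
theorem t_RES2 : S_RES2 := pr_RES2
theorem t_TREE : S_TREE := pr_TREE t_BR t_MAX t_CL1


/-- closed point of the Ziegler spectrum of `R`: an indecomposable pure-injective module which is
separated from every other such module by a pp-pair -/
def IsClosedPoint (R : Type) [Ring R] (N : Type) [AddCommGroup N] [Module R N] : Prop :=
  Indec R N ∧ PInj R N ∧ ClosedPt R N

theorem good_of_closed {R : Type} [Ring R] {N : Type} [AddCommGroup N] [Module R N]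
    (h : IsClosedPoint R N) : Good R N :=
  good_of t_ACP t_HP t_IRR t_LINK t_REAL R N h.1 h.2.1 h.2.2

theorem SL.isClosedPoint {R : Type} [Ring R] {N M : Type} [AddCommGroup N] [Module R N]
    [AddCommGroup M] [Module R M] {θ : RingAut R} {s : N ≃+ M} (h : SL θ s)
    (hN : IsClosedPoint R N) : IsClosedPoint R M :=
  ⟨h.indec hN.1, t_PAC R M (h.ac (t_ACP R N hN.2.1)), h.closedPt t_ACP t_PAC hN.2.2⟩

/-- over a countable algebraically closed field there is nothing to do -/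
theorem countable_case (K : Type) [Field K] [IsAlgClosed K] (hK : #K ≤ ℵ₀)
    (R : Type) [Ring R] [Algebra K R] [Module.Finite K R]
    (N : Type) [AddCommGroup N] [Module R N] (hN : IsClosedPoint R N) :
    IsFiniteLength (Module.End R N) N := by
  refine main_of t_ACP t_HP t_IRR t_LINK t_REAL t_F0 t_FL t_TREE t_CNT t_CARD t_RES1 t_RES2
    t_ARITH K (fun m hm => ?_) R N hN.1 hN.2.1 hN.2.2
  have hnt : Nontrivial (K ⧸ m) := Ideal.Quotient.nontrivial_iff.2 hm.ne_top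
  calc #(K ⧸ m) ≤ #K := Cardinal.mk_le_of_surjective Ideal.Quotient.mk_surjective
    _ ≤ ℵ₀ := hK
    _ < 2 ^ ℵ₀ := Cardinal.cantor _
    _ ≤ #(K ⧸ m) ^ ℵ₀ := Cardinal.power_le_power_right (Cardinal.two_le_iff_one_lt.2
        (Cardinal.one_lt_iff_nontrivial.2 hnt))

/-- the final theorem -/
theorem final (K : Type) [Field K] [IsAlgClosed K]
    (R : Type) [Ring R] [Algebra K R] [Module.Finite K R]
    (N : Type) [AddCommGroup N] [Module R N] (hN : IsClosedPoint R N)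
    (hinf : ¬ IsFiniteLength (Module.End R N) N) :
    ∃ (M : Set K → Type) (_ : ∀ A, AddCommGroup (M A)) (_ : ∀ A, Module R (M A)),
      (∀ A, IsClosedPoint R (M A) ∧ ¬ IsFiniteLength (Module.End R (M A)) (M A) ∧
        ∃ (θ : R ≃+* R) (s : N ≃+ M A), ∀ (r : R) (x : N), s (r • x) = θ r • s x) ∧
      ∀ A B, Nonempty (M A ≃ₗ[R] M B) → A = B := by
  rcases le_or_gt #K ℵ₀ with hK | hK
  · exact absurd (countable_case K hK R N hN) hinf
  let st : Setoid (RingAut R) :=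
    { r := fun θ θ' => Nonempty (Tw θ N ≃ₗ[R] Tw θ' N)
      iseqv := ⟨fun θ => ⟨LinearEquiv.refl R _⟩, fun ⟨e⟩ => ⟨e.symm⟩,
        fun ⟨e⟩ ⟨e'⟩ => ⟨e.trans e'⟩⟩ }
  have hQ : 2 ^ #K ≤ #(Quotient st) := by
    by_contra hlt
    obtain ⟨θ, hθ⟩ := main t_NU t_MR t_CL1 t_CL2 t_MAX t_F0 t_FL t_CARD K hK R N
      (good_of_closed hN) hinf (Quotient st) (fun q => Tw q.out N) (not_le.1 hlt)
    apply hθ (Quotient.mk st θ)
    have h1 : st.r θ (Quotient.mk st θ).out := st.symm (Quotient.mk_out θ)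
    obtain ⟨e⟩ := h1
    have he : SL (1 : RingAut R) e.toAddEquiv := fun r x => e.map_smul r x
    have h2 := (toTw_SL θ (N := N)).trans he
    rw [one_mul] at h2
    exact ⟨_, h2⟩
  rw [← Cardinal.mk_set] at hQ
  obtain ⟨g⟩ := hQ
  refine ⟨fun A => Tw (g A).out N, fun A => inferInstance, fun A => inferInstance, fun A => ?_,
    fun A B hAB => ?_⟩
  · have h1 := toTw_SL (g A).out (N := N)
    exact ⟨h1.isClosedPoint hN, fun h => hinf (h1.symm.finLen h), (g A).out, toTw _ N, h1⟩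
  · apply g.injective
    have h1 : Quotient.mk st (g A).out = Quotient.mk st (g B).out := Quotient.sound hAB
    rw [Quotient.out_eq, Quotient.out_eq] at h1
    exact h1

end Pool.Agent.Work.MP_edf6ee_al.AU
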