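import Pool.Agent.Work.MP_edf6ee_al.AU.Fld

/-!
# MP_edf6ee_al: subgroups of small index of the automorphism group of a field

`Small G`: the cosets of `G` are labelled by fewer than `2 ^ #X` labels.
-/

set_option autoImplicit false

namespace Pool.Agent.Work.MP_edf6ee_al.AU

open scoped Cardinal

section

variable {K₀ K : Type} [Field K₀] [Field K] [Algebra K₀ K] {X : Type}

/-- there is a labelling of the automorphisms by fewer than `2 ^ #X` labels such that
automorphisms with the same label are in the same coset of `G` -/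
def Small (X : Type) (G : Subgroup (K ≃ₐ[K₀] K)) : Prop :=
  ∃ (L : Type) (f : (K ≃ₐ[K₀] K) → L), #L < 2 ^ #X ∧ ∀ σ τ, f σ = f τ → τ⁻¹ * σ ∈ G

theorem Small.pigeon {G : Subgroup (K ≃ₐ[K₀] K)} (h : Small X G)
    (F : Set X → (K ≃ₐ[K₀] K)) : ∃ A B : Set X, (∃ i, i ∈ A ∧ i ∉ B) ∧ (F B)⁻¹ * F A ∈ G := by
  obtain ⟨L, f, hL, hf⟩ := h
  have hninj : ¬ Function.Injective (fun A : Set X => f (F A)) := by
    intro hinj
    have h1 := Cardinal.mk_le_of_injective hinj
    rw [Cardinal.mk_set] at h1
    exact absurd h1 (not_le.2 hL)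
  rw [Function.Injective] at hninj
  push Not at hninj
  obtain ⟨A, B, hAB, hne⟩ := hninj
  by_cases h1 : ∃ i, i ∈ A ∧ i ∉ B
  · exact ⟨A, B, h1, hf _ _ hAB⟩
  · push Not at h1
    have h2 : ∃ i, i ∈ B ∧ i ∉ A := by
      by_contra h2
      push Not at h2
      exact hne (Set.Subset.antisymm h1 h2)
    exact ⟨B, A, h2, hf _ _ hAB.symm⟩

variable {x : X → K}

/-- the block argument -/
theorem exists_block [IsAlgClosed K] [Infinite X] (hx : IsTranscendenceBasis K₀ x)
    {H' : Subgroup (K ≃ₐ[K₀] K)} (hs : Small X H') :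
    ∃ u : X → X, Function.Injective u ∧ ∀ π : Equiv.Perm X, ∃ h ∈ H',
      (∀ i, h (x (u i)) = x (u (π i))) ∧
      ∀ i, i ∉ Set.range u → ∃ i', i' ∉ Set.range u ∧ h (x i) = x i' := by
  classical
  have hcard : #(X × X) = #X := by
    rw [← Cardinal.mul_def]
    exact Cardinal.mul_eq_self (Cardinal.infinite_iff.1 inferInstance)
  obtain ⟨e⟩ := Cardinal.eq.1 hcard
  by_contra hcon
  push Not at hcon
  have hinj : ∀ j, Function.Injective fun i => e (j, i) := by
    intro j i i' h
    have := e.injective h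
    exact (Prod.mk.inj this).2
  choose π hπ using fun j => hcon (fun i => e (j, i)) (hinj j)
  have hrange : ∀ j i, i ∉ Set.range (fun i => e (j, i)) ↔ (e.symm i).1 ≠ j := by
    intro j i
    constructor
    · intro h1 h2
      apply h1
      refine ⟨(e.symm i).2, ?_⟩
      change e (j, (e.symm i).2) = i
      rw [← h2]
      exact e.apply_symm_apply i
    · rintro h1 ⟨k, rfl⟩
      apply h1
      change (e.symm (e (j, k))).1 = j
      rw [e.symm_apply_apply]
  -- the permutations
  let q : Set X → Equiv.Perm (X × X) := fun A =>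
    Equiv.sigmaEquivProd X X |>.symm.trans
      ((Equiv.sigmaCongrRight fun j => if j ∈ A then π j else Equiv.refl X).trans
        (Equiv.sigmaEquivProd X X))
  have hq : ∀ A j i, q A (j, i) = (j, if j ∈ A then π j i else i) := by
    intro A j i
    change ((j, (if j ∈ A then π j else Equiv.refl X) i) : X × X) = _
    split_ifs <;> rfl
  choose F hF using fun A : Set X => exists_lift hx ((e.symm.trans (q A)).trans e)
  have hF' : ∀ A j i, F A (x (e (j, i))) = x (e (j, if j ∈ A then π j i else i)) := by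
    intro A j i
    rw [hF]
    congr 1
    change e (q A (e.symm (e (j, i)))) = _
    rw [e.symm_apply_apply, hq]
  have hFi : ∀ A j i, (F A)⁻¹ (x (e (j, if j ∈ A then π j i else i))) = x (e (j, i)) := by
    intro A j i
    rw [← hF' A j i]
    exact (F A).symm_apply_apply _
  obtain ⟨A, B, ⟨j, hjA, hjB⟩, hG⟩ := hs.pigeon F
  have hgen : ∀ j' i, ∃ i', ((F B)⁻¹ * F A) (x (e (j', i))) = x (e (j', i')) := by
    intro j' i
    rw [AlgEquiv.mul_apply, hF']
    set k := if j' ∈ A then π j' i else i with hk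
    refine ⟨if j' ∈ B then (π j').symm k else k, ?_⟩
    have h1 := hFi B j' (if j' ∈ B then (π j').symm k else k)
    have h2 : (if j' ∈ B then π j' (if j' ∈ B then (π j').symm k else k) else
        (if j' ∈ B then (π j').symm k else k)) = k := by
      split_ifs
      · exact (π j').apply_symm_apply k
      · rfl
    rw [h2] at h1
    exact h1
  obtain ⟨i, hi, hi2⟩ := hπ j _ hG (fun i => by
    have h1 := hFi B j (π j i)
    rw [if_neg hjB] at h1
    rw [AlgEquiv.mul_apply, hF', if_pos hjA]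
    exact h1)
  rw [hrange] at hi
  obtain ⟨i', hi'⟩ := hgen (e.symm i).1 (e.symm i).2
  have h3 : e ((e.symm i).1, (e.symm i).2) = i := e.apply_symm_apply i
  rw [h3] at hi'
  refine hi2 _ ?_ hi'
  rw [hrange, e.symm_apply_apply]
  exact hi

/-- an involution which exchanges two disjoint sequences -/
theorem exists_swap {X : Type} (a b : ℕ → X) (ha : Function.Injective a)
    (hb : Function.Injective b) (hab : ∀ m n, a m ≠ b n) :
    ∃ π : Equiv.Perm X, (∀ n, π (a n) = b n) ∧ ∀ i, i ∉ Set.range a → i ∉ Set.range b →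
      π i = i := by
  classical
  let f : X → X := fun i => if h : ∃ n, a n = i then b h.choose else
    if h : ∃ n, b n = i then a h.choose else i
  have hfa : ∀ n, f (a n) = b n := by
    intro n
    have h : ∃ m, a m = a n := ⟨n, rfl⟩
    change (if h : ∃ m, a m = a n then b h.choose else _) = _
    rw [dif_pos h]
    exact congrArg b (ha h.choose_spec)
  have hfb : ∀ n, f (b n) = a n := by
    intro n
    have h0 : ¬ ∃ m, a m = b n := fun ⟨m, hm⟩ => hab m n hm
    have h : ∃ m, b m = b n := ⟨n, rfl⟩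
    change (if h : ∃ m, a m = b n then b h.choose else
      if h : ∃ m, b m = b n then a h.choose else _) = _
    rw [dif_neg h0, dif_pos h]
    exact congrArg a (hb h.choose_spec)
  have hfo : ∀ i, i ∉ Set.range a → i ∉ Set.range b → f i = i := by
    intro i h1 h2
    have h1' : ¬ ∃ m, a m = i := h1
    have h2' : ¬ ∃ m, b m = i := h2
    change (if h : ∃ m, a m = i then b h.choose else
      if h : ∃ m, b m = i then a h.choose else _) = _
    rw [dif_neg h1', dif_neg h2']
  have hinv : Function.Involutive f := by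
    intro i
    by_cases h1 : i ∈ Set.range a
    · obtain ⟨n, rfl⟩ := h1
      rw [hfa, hfb]
    · by_cases h2 : i ∈ Set.range b
      · obtain ⟨n, rfl⟩ := h2
        rw [hfb, hfa]
      · rw [hfo i h1 h2, hfo i h1 h2]
  exact ⟨hinv.toPerm, hfa, hfo⟩

/-- elements of a small subgroup with infinite orbits and small support -/
theorem exists_shift [IsAlgClosed K] (hx : IsTranscendenceBasis K₀ x)
    {G : Subgroup (K ≃ₐ[K₀] K)} (hs : Small X G) (w : X × ℤ → X) (hw : Function.Injective w) :
    ∃ g ∈ G, (∀ i, i ∉ Set.range w → g (x i) = x i) ∧ ∃ j, ∀ z, g (x (w (j, z))) =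
      x (w (j, z + 1)) := by
  classical
  let f : Set X → X → X := fun A i => if h : ∃ p : X × ℤ, w p = i then
    (if h.choose.1 ∈ A then w (h.choose.1, h.choose.2 + 1) else i) else i
  let f' : Set X → X → X := fun A i => if h : ∃ p : X × ℤ, w p = i then
    (if h.choose.1 ∈ A then w (h.choose.1, h.choose.2 - 1) else i) else i
  have hf : ∀ A j z, f A (w (j, z)) = if j ∈ A then w (j, z + 1) else w (j, z) := by
    intro A j z
    have h : ∃ p : X × ℤ, w p = w (j, z) := ⟨_, rfl⟩
    have hp : h.choose = (j, z) := hw h.choose_spec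
    change (if h : ∃ p : X × ℤ, w p = w (j, z) then
      (if h.choose.1 ∈ A then w (h.choose.1, h.choose.2 + 1) else w (j, z)) else w (j, z)) = _
    rw [dif_pos h, hp]
  have hf' : ∀ A j z, f' A (w (j, z)) = if j ∈ A then w (j, z - 1) else w (j, z) := by
    intro A j z
    have h : ∃ p : X × ℤ, w p = w (j, z) := ⟨_, rfl⟩
    have hp : h.choose = (j, z) := hw h.choose_spec
    change (if h : ∃ p : X × ℤ, w p = w (j, z) then
      (if h.choose.1 ∈ A then w (h.choose.1, h.choose.2 - 1) else w (j, z)) else w (j, z)) = _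
    rw [dif_pos h, hp]
  have hfo : ∀ A i, i ∉ Set.range w → f A i = i := fun A i hi => dif_neg hi
  have hfo' : ∀ A i, i ∉ Set.range w → f' A i = i := fun A i hi => dif_neg hi
  have hl : ∀ A, Function.LeftInverse (f' A) (f A) := by
    intro A i
    by_cases hi : i ∈ Set.range w
    · obtain ⟨⟨j, z⟩, rfl⟩ := hi
      rw [hf]
      split_ifs with hj
      · rw [hf', if_pos hj, add_sub_cancel_right]
      · rw [hf', if_neg hj]
    · rw [hfo A i hi, hfo' A i hi]
  have hr : ∀ A, Function.RightInverse (f' A) (f A) := by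
    intro A i
    by_cases hi : i ∈ Set.range w
    · obtain ⟨⟨j, z⟩, rfl⟩ := hi
      rw [hf']
      split_ifs with hj
      · rw [hf, if_pos hj, sub_add_cancel]
      · rw [hf, if_neg hj]
    · rw [hfo' A i hi, hfo A i hi]
  choose F hF using fun A : Set X => exists_lift hx (⟨f A, f' A, hl A, hr A⟩ : Equiv.Perm X)
  have hF1 : ∀ A i, F A (x i) = x (f A i) := fun A i => hF A i
  have hF2 : ∀ A i, (F A)⁻¹ (x i) = x (f' A i) := by
    intro A i
    have h1 := hF1 A (f' A i)
    rw [hr A i] at h1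
    rw [← h1]
    exact (F A).symm_apply_apply _
  obtain ⟨A, B, ⟨j, hjA, hjB⟩, hG⟩ := hs.pigeon F
  refine ⟨_, hG, fun i hi => ?_, j, fun z => ?_⟩
  · rw [AlgEquiv.mul_apply, hF1, hF2, hfo A i hi, hfo' B i hi]
  · rw [AlgEquiv.mul_apply, hF1, hF2, hf, if_pos hjA, hf', if_neg hjB]

/-- the contradiction -/
theorem contra [IsAlgClosed K] [Uncountable X] (hx : IsTranscendenceBasis K₀ x)
    {G H' : Subgroup (K ≃ₐ[K₀] K)} (hs : Small X G) (u : X → X) (hu : Function.Injective u)
    (hH : ∀ π : Equiv.Perm X, ∃ h ∈ H', (∀ i, h (x (u i)) = x (u (π i))) ∧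
      ∀ i, i ∉ Set.range u → ∃ i', i' ∉ Set.range u ∧ h (x i) = x i')
    (a : ℕ → X) (ha : Function.Injective a) (E : Set X) (hE : E.Countable)
    (haE : ∀ n, u (a n) ∉ E)
    (key : ∀ σ ∈ H', ∃ c : Finset K, ∀ g ∈ G, (∀ k ∈ c, g k = k) →
      (∀ e ∈ E, g (σ (x e)) = σ (x e)) → ∀ n, Per g (σ (x (u (a n))))) : False := by
  classical
  -- room for the shifts
  have hroom : ∃ w : ℕ × (X × ℤ) → X, Function.Injective w ∧ ∀ p, w p ∉ Set.range a ∧
      u (w p) ∉ E := by
    have hC : (Set.range a ∪ u ⁻¹' E).Countable :=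
      (Set.countable_range a).union (hE.preimage_of_injOn hu.injOn)
    have h1 : ℵ₀ < #X := Cardinal.aleph0_lt_mk_iff.2 inferInstance
    have h2 : #((Set.range a ∪ u ⁻¹' E)ᶜ : Set X) = #X :=
      Cardinal.mk_compl_of_infinite _ (lt_of_le_of_lt (Cardinal.le_aleph0_iff_set_countable.2 hC) h1)
    have h3 : #(ℕ × (X × ℤ)) = #X := by
      rw [Cardinal.mk_prod, Cardinal.mk_prod]
      simp only [Cardinal.lift_id, Cardinal.mk_nat, Cardinal.mk_int]
      rw [Cardinal.mul_aleph0_eq h1.le, Cardinal.aleph0_mul_eq h1.le]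
    obtain ⟨e⟩ := Cardinal.eq.1 (h3.trans h2.symm)
    refine ⟨fun p => (e p).1, fun p q h => e.injective (Subtype.ext h), fun p => ⟨fun h => ?_,
      fun h => ?_⟩⟩
    · exact (e p).2 (Or.inl h)
    · exact (e p).2 (Or.inr h)
  obtain ⟨w, hw, hwa⟩ := hroom
  have hwn : ∀ n, Function.Injective fun p : X × ℤ => u (w (n, p)) := by
    intro n p q h
    exact (Prod.mk.inj (hw (hu h))).2
  choose g hgG hgo j hgj using fun n => exists_shift hx hs _ (hwn n)
  let y : ℕ → X := fun n => w (n, (j n, 0))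
  have hy : Function.Injective y := fun m n h => (Prod.mk.inj (hw h)).1
  obtain ⟨π, hπ1, hπ2⟩ := exists_swap a y ha hy (fun m n h => (hwa _).1 ⟨m, h⟩)
  obtain ⟨σ, hσ, hσ1, hσ2⟩ := hH π
  obtain ⟨c, hc⟩ := key σ hσ
  obtain ⟨S, hS⟩ := exists_supp_finset hx c
  -- a shift which avoids the support of `c`
  have hn : ∃ n, ∀ i ∈ S, i ∉ Set.range fun p : X × ℤ => u (w (n, p)) := by
    by_contra hcon
    push Not at hcon
    choose s hs1 p hp using hcon
    have hinj : Function.Injective (fun n => (⟨s n, hs1 n⟩ : S)) := by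
      intro m n h
      have h1 : s m = s n := congrArg Subtype.val h
      rw [← hp m, ← hp n] at h1
      exact (Prod.mk.inj (hw (hu h1))).1
    exact not_injective_infinite_finite _ hinj
  obtain ⟨n, hn⟩ := hn
  obtain ⟨m, hm, hfix⟩ := hS (g n) fun i hi => ⟨1, one_pos, by rw [pow_one]; exact hgo n i (hn i hi)⟩
  have hE' : ∀ e ∈ E, (g n ^ m) (σ (x e)) = σ (x e) := by
    intro e he
    refine pow_fix ?_ m
    by_cases hr : e ∈ Set.range u
    · obtain ⟨i, rfl⟩ := hr
      have h1 : π i = i := by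
        apply hπ2
        · rintro ⟨k, rfl⟩; exact haE k he
        · rintro ⟨k, rfl⟩; exact (hwa _).2 he
      rw [hσ1, h1]
      apply hgo
      rintro ⟨p, hp⟩
      have h2 : w (n, p) = i := hu hp
      rw [← h2] at he
      exact (hwa _).2 he
    · obtain ⟨i', hi', h1⟩ := hσ2 e hr
      rw [h1]
      apply hgo
      rintro ⟨p, hp⟩
      exact hi' ⟨_, hp⟩
  obtain ⟨m', hm', hper⟩ := hc (g n ^ m) (G.pow_mem (hgG n) m) hfix hE' n
  rw [hσ1, hπ1, ← pow_mul] at hper
  have horb : ∀ k : ℕ, (g n ^ k) (x (u (w (n, (j n, 0))))) = x (u (w (n, (j n, (k : ℤ))))) := by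
    intro k
    induction k with
    | zero => rfl
    | succ k ih =>
      rw [pow_succ', AlgEquiv.mul_apply, ih]
      have := hgj n (k : ℤ)
      rw [Nat.cast_succ]
      exact this
  have h1 := horb (m * m')
  have h2 : x (u (w (n, (j n, ((m * m' : ℕ) : ℤ))))) = x (u (w (n, (j n, 0)))) := h1.symm.trans hper
  have h3 := hwn n (hx.1.injective h2)
  have h4 : ((m * m' : ℕ) : ℤ) = 0 := (Prod.mk.inj h3).2
  have h5 : m * m' = 0 := by exact_mod_cast h4
  rcases Nat.mul_eq_zero.1 h5 with h | h <;> omega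

end

end Pool.Agent.Work.MP_edf6ee_al.AU
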