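import Mathlib

/-!
# MP_edf6ee_al: automorphisms of algebraically closed fields

Permutations of a transcendence basis lift to automorphisms; finite supports.
-/

set_option autoImplicit false

namespace Pool.Agent.Work.MP_edf6ee_al.AU

open scoped Cardinal

section

variable {K₀ K : Type} [Field K₀] [Field K] [Algebra K₀ K]

/-- `k` has a finite orbit under `τ` -/
def Per (τ : K ≃ₐ[K₀] K) (k : K) : Prop := ∃ m : ℕ, 0 < m ∧ (τ ^ m) k = k

theorem pow_fix {τ : K ≃ₐ[K₀] K} {k : K} (h : τ k = k) (m : ℕ) : (τ ^ m) k = k := by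
  induction m with
  | zero => rfl
  | succ m ih =>
    rw [pow_succ, AlgEquiv.mul_apply, h, ih]

theorem pow_mul_fix {τ : K ≃ₐ[K₀] K} {k : K} {m : ℕ} (h : (τ ^ m) k = k) (n : ℕ) :
    (τ ^ (m * n)) k = k := by
  rw [pow_mul]
  exact pow_fix h n

theorem Per.of_pow {τ : K ≃ₐ[K₀] K} {k : K} {m : ℕ} (hm : 0 < m) (h : Per (τ ^ m) k) :
    Per τ k := by
  obtain ⟨n, hn, h⟩ := h
  exact ⟨m * n, Nat.mul_pos hm hn, by rw [pow_mul]; exact h⟩

theorem Per.pow {τ : K ≃ₐ[K₀] K} {k : K} (m : ℕ) (h : Per τ k) : Per (τ ^ m) k := by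
  obtain ⟨n, hn, h⟩ := h
  refine ⟨n, hn, ?_⟩
  rw [← pow_mul, mul_comm]
  exact pow_mul_fix h m

/-- finitely many elements with finite orbits are fixed by a common power -/
theorem Per.common {ι : Type} {τ : K ≃ₐ[K₀] K} (c : Finset ι) (f : ι → K)
    (h : ∀ i ∈ c, Per τ (f i)) : ∃ m : ℕ, 0 < m ∧ ∀ i ∈ c, (τ ^ m) (f i) = f i := by
  classical
  induction c using Finset.induction_on with
  | empty => exact ⟨1, one_pos, by simp⟩
  | insert a c ha ih =>
    obtain ⟨m, hm, h1⟩ := ih fun i hi => h i (Finset.mem_insert_of_mem hi)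
    obtain ⟨n, hn, h2⟩ := h a (Finset.mem_insert_self a c)
    refine ⟨m * n, Nat.mul_pos hm hn, fun i hi => ?_⟩
    rcases Finset.mem_insert.1 hi with rfl | hi
    · rw [mul_comm]; exact pow_mul_fix h2 m
    · exact pow_mul_fix (h1 i hi) n

/-- the orbit of an algebraic element -/
theorem per_of_root {A : Type} [CommRing A] [Algebra A K] (τ : K ≃ₐ[K₀] K) (k : K)
    (p : Polynomial A) (hp : p.map (algebraMap A K) ≠ 0) (hk : Polynomial.aeval k p = 0)
    (hτ : ∀ n, τ (algebraMap A K (p.coeff n)) = algebraMap A K (p.coeff n)) : Per τ k := by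
  classical
  set P := p.map (algebraMap A K) with hP
  have hroot : ∀ y : K, P.IsRoot y → P.IsRoot (τ y) := by
    intro y hy
    have h1 : P.map (τ : K →+* K) = P := by
      ext n
      rw [Polynomial.coeff_map, hP, Polynomial.coeff_map]
      exact hτ n
    have h2 := Polynomial.IsRoot.map (f := (τ : K →+* K)) hy
    rw [h1] at h2
    exact h2
  have hk' : P.IsRoot k := by
    rw [Polynomial.IsRoot, hP, Polynomial.eval_map_algebraMap]
    exact hk
  have hall : ∀ n : ℕ, P.IsRoot ((τ ^ n) k) := by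
    intro n
    induction n with
    | zero => exact hk'
    | succ n ih =>
      rw [pow_succ', AlgEquiv.mul_apply]
      exact hroot _ ih
  have hfin : Set.Finite {y : K | P.IsRoot y} := Polynomial.finite_setOfPred_isRoot hp
  have hninj : ¬ Function.Injective (fun n : ℕ => (⟨(τ ^ n) k, hall n⟩ : {y : K | P.IsRoot y})) := by
    have := hfin.to_subtype
    exact not_injective_infinite_finite _
  rw [Function.Injective] at hninj
  push Not at hninj
  obtain ⟨a, b, hab, hne⟩ := hninj
  have hab' : (τ ^ a) k = (τ ^ b) k := congrArg Subtype.val hab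
  have key : ∀ a b : ℕ, a < b → (τ ^ a) k = (τ ^ b) k → Per τ k := by
    intro a b hlt he
    refine ⟨b - a, Nat.sub_pos_of_lt hlt, ?_⟩
    have h1 : τ ^ b = τ ^ a * τ ^ (b - a) := by
      rw [← pow_add]; congr 1; omega
    rw [h1, AlgEquiv.mul_apply] at he
    exact ((τ ^ a).injective he).symm
  rcases lt_or_gt_of_ne hne with h | h
  · exact key a b h hab'
  · exact key b a h hab'.symm

variable {X : Type} {x : X → K}

/-- every element has a finite support in the transcendence basis -/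
theorem exists_supp (hx : IsTranscendenceBasis K₀ x) (k : K) :
    ∃ S : Finset X, ∀ τ : K ≃ₐ[K₀] K, (∀ i ∈ S, Per τ (x i)) → Per τ k := by
  classical
  have halg := hx.isAlgebraic
  obtain ⟨p, hp0, hpk⟩ := Algebra.IsAlgebraic.isAlgebraic (R := Algebra.adjoin K₀ (Set.range x)) k
  -- elements of the adjoin have finite support
  have hmem : ∀ y ∈ Algebra.adjoin K₀ (Set.range x), ∃ S : Finset X, ∀ τ : K ≃ₐ[K₀] K,
      (∀ i ∈ S, τ (x i) = x i) → τ y = y := by
    intro y hy
    induction hy using Algebra.adjoin_induction with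
    | mem y hy =>
      obtain ⟨i, rfl⟩ := hy
      exact ⟨{i}, fun τ h => h i (Finset.mem_singleton_self i)⟩
    | algebraMap r => exact ⟨∅, fun τ _ => τ.commutes r⟩
    | add y z _ _ hy hz =>
      obtain ⟨S, hS⟩ := hy
      obtain ⟨T, hT⟩ := hz
      refine ⟨S ∪ T, fun τ h => ?_⟩
      rw [map_add, hS τ fun i hi => h i (Finset.mem_union_left T hi),
        hT τ fun i hi => h i (Finset.mem_union_right S hi)]
    | mul y z _ _ hy hz =>
      obtain ⟨S, hS⟩ := hy
      obtain ⟨T, hT⟩ := hz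
      refine ⟨S ∪ T, fun τ h => ?_⟩
      rw [map_mul, hS τ fun i hi => h i (Finset.mem_union_left T hi),
        hT τ fun i hi => h i (Finset.mem_union_right S hi)]
  choose! F hF using hmem
  refine ⟨p.support.biUnion fun n => F (p.coeff n), fun τ hτ => ?_⟩
  obtain ⟨m, hm, hfix⟩ := Per.common _ x hτ
  refine Per.of_pow hm ?_
  have hinj : Function.Injective (algebraMap (Algebra.adjoin K₀ (Set.range x)) K) :=
    Subtype.val_injective
  refine per_of_root (τ ^ m) k p ?_ hpk fun n => ?_
  · intro h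
    exact hp0 ((Polynomial.map_eq_zero_iff hinj).1 h)
  · by_cases hn : n ∈ p.support
    · refine hF (p.coeff n) (p.coeff n).2 (τ ^ m) fun i hi => ?_
      exact hfix i (Finset.mem_biUnion.2 ⟨n, hn, hi⟩)
    · rw [Polynomial.notMem_support_iff.1 hn, map_zero, map_zero]

/-- finite supports of finite sets -/
theorem exists_supp_finset (hx : IsTranscendenceBasis K₀ x) (c : Finset K) :
    ∃ S : Finset X, ∀ τ : K ≃ₐ[K₀] K, (∀ i ∈ S, Per τ (x i)) →
      ∃ m : ℕ, 0 < m ∧ ∀ k ∈ c, (τ ^ m) k = k := by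
  classical
  choose F hF using exists_supp hx
  refine ⟨c.biUnion F, fun τ hτ => ?_⟩
  exact Per.common c id fun k hk => hF k τ fun i hi => hτ i (Finset.mem_biUnion.2 ⟨k, hk, hi⟩)

/-- permutations of the transcendence basis lift -/
theorem exists_lift [IsAlgClosed K] (hx : IsTranscendenceBasis K₀ x) (π : Equiv.Perm X) :
    ∃ τ : K ≃ₐ[K₀] K, ∀ i, τ (x i) = x (π i) := by
  let A := Algebra.adjoin K₀ (Set.range x)
  have : IsAlgClosure A K := IsAlgClosed.isAlgClosure_of_transcendence_basis x hx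
  let e : A ≃ₐ[K₀] A := (hx.1.aevalEquiv.symm.trans (MvPolynomial.renameEquiv K₀ π)).trans
    hx.1.aevalEquiv
  let τ : K ≃+* K := IsAlgClosure.equivOfEquiv K K e.toRingEquiv
  have hτ : ∀ a : A, τ (a : K) = (e a : K) := fun a =>
    IsAlgClosure.equivOfEquiv_algebraMap K K e.toRingEquiv a
  refine ⟨AlgEquiv.ofRingEquiv (f := τ) fun r => ?_, fun i => ?_⟩
  · have h1 := hτ (algebraMap K₀ A r)
    rw [e.commutes] at h1
    exact h1
  · have h1 : ((hx.1.aevalEquiv (MvPolynomial.X i) : A) : K) = x i := by simp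
    have h2 : ((hx.1.aevalEquiv (MvPolynomial.X (π i)) : A) : K) = x (π i) := by simp
    have h3 := hτ (hx.1.aevalEquiv (MvPolynomial.X i))
    rw [h1] at h3
    change τ (x i) = _
    rw [h3, ← h2]
    congr 1
    simp [e]

end

end Pool.Agent.Work.MP_edf6ee_al.AU
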