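import Pool.Agent.Work.MP_edf6ee_al.AU.Tree
import Pool.Agent.Work.MP_edf6ee_al.AU.Core
import Pool.Agent.Work.MP_edf6ee_al.AU.Act
import Pool.Agent.Work.MP_edf6ee_al.CP.Asm

/-!
# MP_edf6ee_al: the twists of a closed point of infinite endolength
-/

set_option autoImplicit false
set_option linter.unusedSectionVars false

namespace Pool.Agent.Work.MP_edf6ee_al.AU

open scoped BigOperators Cardinal
open Pool.Agent.Work.MP_edf6ee_al.CP

/-- coding of maximal elements by pp relations -/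
theorem code (hCL1 : S_CL1) (hCL2 : S_CL2) (R : Type) [Ring R] (N : Type) [AddCommGroup N]
    [Module R N] (hG : Good R N) (b : N) (hb : b ≠ 0) (c : N) (hc : MaxEl R N c) :
    ∃ B ∈ D2 R N, (c, b) ∈ B ∧ ∀ x, (x, b) ∈ B → x = c := by
  have hbot : (⊥ : AddSubgroup N) ∈ D1 R N := (hCL1 R N).1
  obtain ⟨B0, hB0, h1, h2⟩ := hG.link c hc.1 ⊥ hbot b (fun h => hb (AddSubgroup.mem_bot.1 h))
  obtain ⟨K, hK, hKer⟩ := (hCL2 R N B0 hB0).ker
  obtain ⟨C, hC, hcC, hCK⟩ := hc.2 K hK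
    (fun h => h2 0 (AddSubgroup.zero_mem _) ((hKer _).1 h))
  obtain ⟨B', hB', hcut⟩ := (hCL2 R N B0 hB0).cut C hC ⊤ (hCL1 R N).2.1
  refine ⟨B', hB', (hcut _ _).2 ⟨h1, hcC, AddSubgroup.mem_top _⟩, fun x hx => ?_⟩
  have h3 := (hcut _ _).1 hx
  have h4 : (x - c, (0 : N)) ∈ B0 := by
    have h5 := B0.sub_mem h3.1 h1
    simpa using h5
  have h6 : x - c ∈ C ⊓ K := ⟨C.sub_mem h3.2.1 hcC, (hKer _).2 h4⟩
  rw [hCK, AddSubgroup.mem_bot] at h6
  exact sub_eq_zero.1 h6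

section

variable {K : Type} [Field K] {K₀ : Subfield K} {R : Type} [Ring R] [Algebra K R]
  {N : Type} [AddCommGroup N] [Module R N]

/-- the stabiliser of (the isomorphism class of) `N` -/
def stN (act : (K ≃ₐ[K₀] K) →* RingAut R) (N : Type) [AddCommGroup N] [Module R N] :
    Subgroup (K ≃ₐ[K₀] K) where
  carrier := {τ | ∃ s : N ≃+ N, SL (act τ) s}
  mul_mem' := by
    rintro τ τ' ⟨s, hs⟩ ⟨s', hs'⟩
    refine ⟨s'.trans s, ?_⟩
    rw [map_mul]
    exact hs'.trans hs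
  one_mem' := ⟨AddEquiv.refl N, fun r x => by rw [map_one]; rfl⟩
  inv_mem' := by
    rintro τ ⟨s, hs⟩
    refine ⟨s.symm, ?_⟩
    rw [map_inv]
    exact hs.symm

/-- the stabiliser of the pp type of `b` -/
def stB (act : (K ≃ₐ[K₀] K) →* RingAut R) (N : Type) [AddCommGroup N] [Module R N] (b : N) :
    Subgroup (K ≃ₐ[K₀] K) where
  carrier := {τ | ∃ s : N ≃+ N, SL (act τ) s ∧ s b = b}
  mul_mem' := by
    rintro τ τ' ⟨s, hs, hb⟩ ⟨s', hs', hb'⟩
    refine ⟨s'.trans s, ?_, ?_⟩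
    · rw [map_mul]
      exact hs'.trans hs
    · change s (s' b) = b
      rw [hb', hb]
  one_mem' := ⟨AddEquiv.refl N, fun r x => by rw [map_one]; rfl, rfl⟩
  inv_mem' := by
    rintro τ ⟨s, hs, hb⟩
    refine ⟨s.symm, ?_, ?_⟩
    · rw [map_inv]
      exact hs.symm
    · rw [← hb, s.symm_apply_apply, hb]

theorem mem_stN {act : (K ≃ₐ[K₀] K) →* RingAut R} {τ : K ≃ₐ[K₀] K} :
    τ ∈ stN act N ↔ ∃ s : N ≃+ N, SL (act τ) s := Iff.rfl

theorem mem_stB {act : (K ≃ₐ[K₀] K) →* RingAut R} {b : N} {τ : K ≃ₐ[K₀] K} :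
    τ ∈ stB act N b ↔ ∃ s : N ≃+ N, SL (act τ) s ∧ s b = b := Iff.rfl

variable {act : (K ≃ₐ[K₀] K) →* RingAut R} {ι : Type} {P : ι → Type}
  [∀ i, AddCommGroup (P i)] [∀ i, Module R (P i)]

/-- if the twists of `N` fall into few classes, then the stabiliser is small -/
theorem small_stN {X : Type} (hι : #ι < 2 ^ #X)
    (hP : ∀ τ : K ≃ₐ[K₀] K, ∃ (i : ι) (s : N ≃+ P i), SL (act τ) s) :
    Small X (stN act N) := by
  choose f s hs using hP
  refine ⟨ι, f, hι, fun σ τ h => ?_⟩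
  have key : ∀ (i : ι) (t : N ≃+ P i), SL (act σ) t → ∀ t' : N ≃+ P i, SL (act τ) t' →
      τ⁻¹ * σ ∈ stN act N := by
    intro i t ht t' ht'
    refine ⟨t.trans t'.symm, ?_⟩
    rw [map_mul, map_inv]
    exact ht.trans ht'.symm
  have key2 : ∀ i, f σ = i → f τ = i → τ⁻¹ * σ ∈ stN act N := by
    intro i h1 h2
    subst h1
    have h3 : ∃ t' : N ≃+ P (f σ), SL (act τ) t' := by
      rw [← h2]
      exact ⟨s τ, hs τ⟩
    obtain ⟨t', ht'⟩ := h3
    exact key _ (s σ) (hs σ) t' ht'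
  exact key2 (f σ) rfl h.symm

/-- the stabiliser of a maximal type is small -/
theorem small_stB {X : Type} (hCL1 : S_CL1) (hCL2 : S_CL2) (hG : Good R N) (b : N)
    (hb : MaxEl R N b) (hD : #(D2 R N) < 2 ^ #X) (hX : ℵ₀ ≤ #X) (h : Small X (stN act N)) :
    Small X (stB act N b) := by
  obtain ⟨L, f, hL, hf⟩ := h
  -- base points
  have hbase : ∀ τ : K ≃ₐ[K₀] K, ∃ σ : K ≃ₐ[K₀] K, f σ = f τ ∧ ∀ τ', f τ' = f τ →
      σ = (Function.invFun f (f τ')) := by
    intro τ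
    refine ⟨Function.invFun f (f τ), Function.invFun_eq ⟨τ, rfl⟩, fun τ' h => by rw [h]⟩
  let β : (K ≃ₐ[K₀] K) → (K ≃ₐ[K₀] K) := fun τ => Function.invFun f (f τ)
  have hβ : ∀ τ, f (β τ) = f τ := fun τ => Function.invFun_eq ⟨τ, rfl⟩
  have hmem : ∀ τ, (β τ)⁻¹ * τ ∈ stN act N := fun τ => hf τ (β τ) (hβ τ).symm
  choose s hs using fun τ => mem_stN.1 (hmem τ)
  choose B hB hcB huni using fun τ => code hCL1 hCL2 R N hG b hb.1 (s τ b) ((hs τ).maxEl hb)
  refine ⟨L × D2 R N, fun τ => (f τ, ⟨B τ, hB τ⟩), ?_, fun σ τ h => ?_⟩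
  · rw [Cardinal.mk_prod, Cardinal.lift_id, Cardinal.lift_id]
    exact Cardinal.mul_lt_of_lt (hX.trans (Cardinal.cantor _).le) hL hD
  · obtain ⟨h1, h2⟩ := Prod.mk.inj h
    have h3 : B σ = B τ := congrArg Subtype.val h2
    have h4 : s σ b = s τ b := by
      apply huni τ
      rw [← h3]
      exact hcB σ
    have h5 : β σ = β τ := by
      change Function.invFun f (f σ) = Function.invFun f (f τ)
      rw [h1]
    refine ⟨(s σ).trans (s τ).symm, ?_, ?_⟩
    · have h6 := (hs σ).trans (hs τ).symm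
      rw [← map_inv, ← map_mul, h5] at h6
      have h7 : ((β τ)⁻¹ * τ)⁻¹ * ((β τ)⁻¹ * σ) = τ⁻¹ * σ := by group
      rw [h7] at h6
      exact h6
    · change (s τ).symm (s σ b) = b
      rw [h4, (s τ).symm_apply_apply]

end

/-- the main theorem -/
theorem main (hNU : S_NU) (hMR : S_MR) (hCL1 : S_CL1) (hCL2 : S_CL2) (hMAX : S_MAX)
    (hF0 : S_F0) (hFL : S_FL) (hCARD : S_CARD)
    (K : Type) [Field K] [IsAlgClosed K] (hK : ℵ₀ < #K)
    (R : Type) [Ring R] [Algebra K R] [Module.Finite K R]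
    (N : Type) [AddCommGroup N] [Module R N] (hG : Good R N)
    (hinf : ¬ IsFiniteLength (Module.End R N) N)
    (ι : Type) (P : ι → Type) [∀ i, AddCommGroup (P i)] [∀ i, Module R (P i)]
    (hι : #ι < 2 ^ #K) :
    ∃ θ : RingAut R, ∀ i, ¬ ∃ s : N ≃+ P i, SL θ s := by
  have hNM : NoMin R N := by
    by_contra hmin
    unfold NoMin at hmin
    push Not at hmin
    obtain ⟨ψ, hψ, φ, hφ, hmp⟩ := hmin
    exact hinf (hFL R N hG.ac (hF0 R N hG ψ hψ φ hφ hmp))
  obtain ⟨K₀, hK₀, act, hact1, hact2⟩ := exists_act K R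
  by_contra hcon
  push Not at hcon
  obtain ⟨X, hx⟩ := exists_isTranscendenceBasis K₀ K
  have hX : #K = #X := IsAlgClosed.cardinal_eq_cardinal_transcendence_basis_of_aleph0_lt' _ hx hK₀ hK
  have hX0 : ℵ₀ < #X := hX ▸ hK
  have hXu : Uncountable X := Cardinal.aleph0_lt_mk_iff.1 hX0
  have hXi : Infinite X := Cardinal.infinite_iff.2 hX0.le
  have hs : Small X (stN act N) := small_stN (P := P) (by rw [← hX]; exact hι) fun τ => hcon _
  obtain ⟨u, hu, hH⟩ := exists_block hx hs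
  obtain ⟨b, a, E, hb, ha, hE, haE, hper⟩ :=
    tree hNU hMR hCL1 hCL2 hMAX hx hact1 hact2 hG hNM u hu
  have hD : #(D2 R N) < 2 ^ #X := by
    refine lt_of_le_of_lt ?_ (Cardinal.cantor _)
    refine (hCARD R N).trans (max_le hX0.le ?_)
    refine Cardinal.mk_range_le.trans ?_
    rw [← hX]
    let bs := Module.finBasis K R
    have h1 : #R = #(Fin (Module.finrank K R) →₀ K) := Cardinal.mk_congr bs.repr.toEquiv
    rw [h1, Cardinal.mk_congr (Finsupp.equivFunOnFinite), ← Cardinal.power_def, Cardinal.mk_fin]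
    exact Cardinal.power_nat_le hK.le
  have hsB : Small X (stB act N b) := small_stB hCL1 hCL2 hG b hb hD hX0.le hs
  refine contra hx hsB u hu hH a ha E hE haE fun σ hσ => ?_
  obtain ⟨s, hs'⟩ := hσ
  obtain ⟨B, hB, hcB, huni⟩ := code hCL1 hCL2 R N hG b hb.1 (s b) (hs'.maxEl hb)
  obtain ⟨c, hc⟩ := exists_coef_D2 hact2 hB
  refine ⟨c, fun g hg hgc hgE n => ?_⟩
  obtain ⟨t, ht, htb⟩ := hg
  have h1 : t (s b) = s b := by
    apply huni
    have h2 := hc g t ht hgc _ _ hcB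
    rw [htb] at h2
    exact h2
  -- conjugate
  have h2 : SL (act (σ⁻¹ * (g * σ))) ((s.trans t).trans s.symm) := by
    rw [map_mul, map_mul, map_inv]
    exact (hs'.trans ht).trans hs'.symm
  have h3 : ((s.trans t).trans s.symm) b = b := by
    change s.symm (t (s b)) = b
    rw [h1, s.symm_apply_apply]
  have h4 : ∀ e ∈ E, (σ⁻¹ * (g * σ)) ((Subtype.val : X → K) e) = (Subtype.val : X → K) e := by
    intro e he
    rw [AlgEquiv.mul_apply, AlgEquiv.mul_apply, hgE e he]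
    exact σ.symm_apply_apply _
  obtain ⟨m, hm, h5⟩ := hper _ _ h2 h3 h4 n
  refine ⟨m, hm, ?_⟩
  have h6 : (σ⁻¹ * (g * σ)) ^ m = σ⁻¹ * (g ^ m * σ) := by
    induction m with
    | zero => simp
    | succ m ih =>
      clear h5 hm
      have h7 : (σ⁻¹ * (g * σ)) ^ m = σ⁻¹ * (g ^ m * σ) := by
        clear ih
        induction m with
        | zero => simp
        | succ m ih => rw [pow_succ, ih, pow_succ]; group
      rw [pow_succ, h7, pow_succ]
      group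
  rw [h6, AlgEquiv.mul_apply, AlgEquiv.mul_apply] at h5
  have h7 := congrArg σ h5
  have h8 : ∀ z, σ (σ⁻¹ z) = z := fun z => σ.apply_symm_apply z
  rw [h8] at h7
  exact h7

end Pool.Agent.Work.MP_edf6ee_al.AU
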