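import Pool.Agent.Work.MP_edf6ee_al.CP.Stmts

/-!
# MP_edf6ee_al: semilinear isomorphisms

pp formulas, closed points and endolength under twisting by a ring automorphism.
-/

set_option autoImplicit false

namespace Pool.Agent.Work.MP_edf6ee_al.AU

open scoped BigOperators Cardinal
open Pool.Agent.Work.MP_edf6ee_al.CP

section

variable {R : Type} [Ring R] {N M P : Type} [AddCommGroup N] [Module R N] [AddCommGroup M]
  [Module R M] [AddCommGroup P] [Module R P]

/-- apply `θ` to the coefficients of a pp formula -/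
def mapPP {n : ℕ} (θ : RingAut R) (φ : PP R n) : PP R n :=
  ⟨φ.m, φ.k, fun i j => θ (φ.C i j), fun i l => θ (φ.D i l)⟩

/-- `s` is `θ`-semilinear -/
def SL (θ : RingAut R) (s : N ≃+ M) : Prop := ∀ (r : R) (x : N), s (r • x) = θ r • s x

theorem SL.symm {θ : RingAut R} {s : N ≃+ M} (h : SL θ s) : SL θ⁻¹ s.symm := by
  intro r y
  apply s.injective
  rw [s.apply_symm_apply, h, s.apply_symm_apply]
  congr 1
  exact (θ.apply_symm_apply r).symm

theorem SL.trans {θ θ' : RingAut R} {s : N ≃+ M} {t : M ≃+ P} (h : SL θ s) (h' : SL θ' t) :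
    SL (θ' * θ) (s.trans t) := by
  intro r y
  change t (s (r • y)) = _
  rw [h, h']
  rfl

theorem SL.sum {θ : RingAut R} {s : N ≃+ M} (h : SL θ s) {n k : ℕ} (C : Fin n → R) (D : Fin k → R)
    (x : Fin n → N) (y : Fin k → N) :
    s (∑ j, C j • x j + ∑ l, D l • y l) = ∑ j, θ (C j) • s (x j) + ∑ l, θ (D l) • s (y l) := by
  rw [map_add, map_sum, map_sum]
  congr 1
  · exact Finset.sum_congr rfl fun j _ => h _ _
  · exact Finset.sum_congr rfl fun j _ => h _ _

theorem SL.sat {θ : RingAut R} {s : N ≃+ M} (h : SL θ s) {n : ℕ} (φ : PP R n) (x : Fin n → N) :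
    (mapPP θ φ).Sat M (fun i => s (x i)) ↔ φ.Sat N x := by
  constructor
  · rintro ⟨y, hy⟩
    refine ⟨fun l => s.symm (y l), fun i => ?_⟩
    apply s.injective
    rw [h.sum, map_zero]
    simp only [AddEquiv.apply_symm_apply]
    exact hy i
  · rintro ⟨y, hy⟩
    refine ⟨fun l => s (y l), fun i => ?_⟩
    have h1 := hy i
    have h2 := congrArg s h1
    rw [h.sum, map_zero] at h2
    exact h2

theorem mapPP_symm {n : ℕ} (θ : RingAut R) (φ : PP R n) : mapPP θ (mapPP θ⁻¹ φ) = φ := by
  obtain ⟨m, k, C, D⟩ := φ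
  unfold mapPP
  congr 1
  · funext i j; exact θ.apply_symm_apply _
  · funext i j; exact θ.apply_symm_apply _

theorem SL.sat' {θ : RingAut R} {s : N ≃+ M} (h : SL θ s) {n : ℕ} (φ : PP R n) (y : Fin n → M) :
    (mapPP θ⁻¹ φ).Sat N (fun i => s.symm (y i)) ↔ φ.Sat M y := h.symm.sat φ y

theorem SL.map_D1 {θ : RingAut R} {s : N ≃+ M} (h : SL θ s) {A : AddSubgroup N}
    (hA : A ∈ D1 R N) : A.map s.toAddMonoidHom ∈ D1 R M := by
  obtain ⟨φ, hφ⟩ := hA
  refine ⟨mapPP θ φ, fun y => ?_⟩
  obtain ⟨x, rfl⟩ := s.surjective y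
  have h1 := h.sat φ (fun _ => x)
  rw [h1, ← hφ]
  constructor
  · rintro ⟨x', hx', he⟩
    have : x' = x := s.injective he
    rw [← this]; exact hx'
  · intro hx
    exact ⟨x, hx, rfl⟩

theorem mem_map_iff (s : N ≃+ M) (A : AddSubgroup N) (x : N) :
    s x ∈ A.map s.toAddMonoidHom ↔ x ∈ A := by
  constructor
  · rintro ⟨x', hx', he⟩
    have : x' = x := s.injective he
    rw [← this]; exact hx'
  · intro hx
    exact ⟨x, hx, rfl⟩

/-- maximal elements -/
theorem SL.maxEl {θ : RingAut R} {s : N ≃+ M} (h : SL θ s) {b : N} (hb : MaxEl R N b) :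
    MaxEl R M (s b) := by
  refine ⟨fun h0 => hb.1 (s.injective (by rw [h0, map_zero])), fun A hA hbA => ?_⟩
  have h1 : A.map s.symm.toAddMonoidHom ∈ D1 R N := h.symm.map_D1 hA
  have h2 : b ∉ A.map s.symm.toAddMonoidHom := by
    intro h3
    apply hbA
    have h4 := mem_map_iff s.symm A (s b)
    rw [s.symm_apply_apply] at h4
    exact h4.1 h3
  obtain ⟨B, hB, hbB, hBA⟩ := hb.2 _ h1 h2
  refine ⟨B.map s.toAddMonoidHom, h.map_D1 hB, (mem_map_iff s B b).2 hbB, ?_⟩
  rw [eq_bot_iff]
  rintro y ⟨⟨x, hx, rfl⟩, hy⟩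
  have h3 : x ∈ B ⊓ A.map s.symm.toAddMonoidHom := by
    refine ⟨hx, ?_⟩
    have h4 := mem_map_iff s.symm A (s x)
    rw [s.symm_apply_apply] at h4
    exact h4.2 hy
  rw [hBA, AddSubgroup.mem_bot] at h3
  rw [h3]
  exact AddSubgroup.mem_bot.2 (map_zero s)

theorem SL.submodule_comap {θ : RingAut R} {s : N ≃+ M} (h : SL θ s) (p : Submodule R M) :
    ∃ q : Submodule R N, ∀ x, x ∈ q ↔ s x ∈ p :=
  ⟨{ carrier := {x | s x ∈ p}
     add_mem' := fun {a b} ha hb => by
      change s (a + b) ∈ p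
      rw [map_add]; exact p.add_mem ha hb
     zero_mem' := by
      change s 0 ∈ p
      rw [map_zero]; exact p.zero_mem
     smul_mem' := fun r x hx => by
      change s (r • x) ∈ p
      rw [h]; exact p.smul_mem _ hx }, fun x => Iff.rfl⟩

/-- indecomposable -/
theorem SL.indec {θ : RingAut R} {s : N ≃+ M} (h : SL θ s) (hN : Indec R N) : Indec R M := by
  obtain ⟨hnt, hI⟩ := hN
  refine ⟨s.symm.toEquiv.nontrivial, fun p q hpq => ?_⟩
  obtain ⟨p', hp'⟩ := h.submodule_comap p
  obtain ⟨q', hq'⟩ := h.submodule_comap q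
  have h1 : IsCompl p' q' := by
    rw [isCompl_iff, disjoint_iff, codisjoint_iff]
    constructor
    · rw [eq_bot_iff]
      rintro x ⟨hx1, hx2⟩
      have h2 : s x ∈ p ⊓ q := ⟨(hp' x).1 hx1, (hq' x).1 hx2⟩
      rw [hpq.inf_eq_bot, Submodule.mem_bot] at h2
      rw [Submodule.mem_bot]
      exact s.injective (by rw [h2, map_zero])
    · rw [eq_top_iff]
      intro x _
      have h2 : s x ∈ p ⊔ q := by rw [hpq.sup_eq_top]; trivial
      obtain ⟨y, hy, z, hz, hyz⟩ := Submodule.mem_sup.1 h2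
      rw [Submodule.mem_sup]
      refine ⟨s.symm y, (hp' _).2 (by rw [s.apply_symm_apply]; exact hy), s.symm z,
        (hq' _).2 (by rw [s.apply_symm_apply]; exact hz), ?_⟩
      apply s.injective
      rw [map_add, s.apply_symm_apply, s.apply_symm_apply, hyz]
  rcases hI p' q' h1 with h2 | h2
  · left
    rw [eq_bot_iff]
    intro y hy
    have h3 : s.symm y ∈ p' := (hp' _).2 (by rw [s.apply_symm_apply]; exact hy)
    rw [h2, Submodule.mem_bot] at h3
    rw [Submodule.mem_bot, ← s.apply_symm_apply y, h3, map_zero]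
  · right
    rw [eq_bot_iff]
    intro y hy
    have h3 : s.symm y ∈ q' := (hq' _).2 (by rw [s.apply_symm_apply]; exact hy)
    rw [h2, Submodule.mem_bot] at h3
    rw [Submodule.mem_bot, ← s.apply_symm_apply y, h3, map_zero]

/-- the module `N` with the action twisted by `θ` -/
@[nolint unusedArguments]
def Tw (_θ : RingAut R) (N : Type) : Type := N

instance (θ : RingAut R) : AddCommGroup (Tw θ N) := inferInstanceAs (AddCommGroup N)

noncomputable instance (θ : RingAut R) : Module R (Tw θ N) :=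
  Module.compHom N ((θ⁻¹ : RingAut R) : R →+* R)

/-- the identity map -/
def toTw (θ : RingAut R) (N : Type) [AddCommGroup N] : N ≃+ Tw θ N := AddEquiv.refl N

theorem toTw_SL (θ : RingAut R) : SL θ (toTw θ N) := by
  intro r x
  change r • x = (θ⁻¹ (θ r)) • x
  congr 1
  exact (θ.symm_apply_apply r).symm

/-- `SL 1` is linear -/
def linEq {s : N ≃+ M} (h : SL (1 : RingAut R) s) : N ≃ₗ[R] M :=
  { s with map_smul' := h }

/-- algebraically compact -/
theorem SL.ac {θ : RingAut R} {s : N ≃+ M} (h : SL θ s) (hN : AC R N) : AC R M := by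
  intro I E row rhs hfin
  have hrow : ∀ e (x : I → N), s (((row e).mapRange (θ⁻¹ : RingAut R) (map_zero _)).sum
      fun i r => r • x i) = (row e).sum fun i r => r • s (x i) := by
    intro e x
    rw [Finsupp.sum_mapRange_index (fun i => zero_smul R (x i)), map_finsuppSum]
    refine Finsupp.sum_congr fun i _ => ?_
    rw [h]
    congr 1
    exact θ.apply_symm_apply _
  obtain ⟨x, hx⟩ := hN I E (fun e => (row e).mapRange (θ⁻¹ : RingAut R) (map_zero _))
    (fun e => s.symm (rhs e)) (fun t => by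
      obtain ⟨y, hy⟩ := hfin t
      refine ⟨fun i => s.symm (y i), fun e he => ?_⟩
      apply s.injective
      rw [hrow, s.apply_symm_apply, ← hy e he]
      refine Finsupp.sum_congr fun i _ => ?_
      rw [s.apply_symm_apply])
  refine ⟨fun i => s (x i), fun e => ?_⟩
  rw [← hrow, hx, s.apply_symm_apply]

/-- closed points -/
theorem SL.closedPt {θ : RingAut R} {s : N ≃+ M} (h : SL θ s) (hACP : S_ACP) (hPAC : S_PAC)
    (hN : ClosedPt R N) : ClosedPt R M := by
  intro L _ _ hI hP hE
  have h1 : Indec R (Tw θ⁻¹ L) := (toTw_SL θ⁻¹ (N := L)).indec hI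
  have h2 : PInj R (Tw θ⁻¹ L) := hPAC R _ ((toTw_SL θ⁻¹ (N := L)).ac (hACP R L hP))
  have h3 : IsEmpty (Tw θ⁻¹ L ≃ₗ[R] N) := by
    constructor
    intro f
    apply hE.false
    have hf : SL (1 : RingAut R) f.toAddEquiv := fun r x => f.map_smul r x
    have h4 := ((toTw_SL θ⁻¹ (N := L)).trans hf).trans h
    have h5 : θ * (1 * θ⁻¹) = (1 : RingAut R) := by rw [one_mul, mul_inv_cancel]
    rw [h5] at h4
    exact linEq h4
  obtain ⟨φ, ψ, ⟨x, hx1, hx2⟩, h4⟩ := hN _ h1 h2 h3
  obtain ⟨x, rfl⟩ := (toTw θ⁻¹ L).surjective x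
  refine ⟨mapPP θ φ, mapPP θ ψ, ⟨x, ?_, ?_⟩, ?_⟩
  · have h5 := (toTw_SL θ⁻¹ (N := L)).sat (mapPP θ φ) (fun _ => x)
    have h6 : mapPP (θ⁻¹ : RingAut R) (mapPP θ φ) = φ := by
      have := mapPP_symm (θ⁻¹ : RingAut R) φ
      rw [inv_inv] at this
      exact this
    rw [h6] at h5
    exact h5.1 hx1
  · have h5 := (toTw_SL θ⁻¹ (N := L)).sat (mapPP θ ψ) (fun _ => x)
    have h6 : mapPP (θ⁻¹ : RingAut R) (mapPP θ ψ) = ψ := by
      have := mapPP_symm (θ⁻¹ : RingAut R) ψ
      rw [inv_inv] at this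
      exact this
    rw [h6] at h5
    exact fun h7 => hx2 (h5.2 h7)
  · intro y hy
    obtain ⟨x', rfl⟩ := s.surjective y
    rw [h.sat ψ (fun _ => x')]
    rw [h.sat φ (fun _ => x')] at hy
    exact h4 x' hy

/-- conjugation of endomorphisms -/
noncomputable def conjE {θ : RingAut R} {s : N ≃+ M} (h : SL θ s) :
    Module.End R N ≃+* Module.End R M where
  toFun f :=
    { toFun := fun y => s (f (s.symm y))
      map_add' := fun y z => by rw [map_add, map_add, map_add]
      map_smul' := fun r y => by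
        rw [h.symm, map_smul, h]
        change θ (θ.symm r) • _ = r • _
        rw [θ.apply_symm_apply] }
  invFun f :=
    { toFun := fun y => s.symm (f (s y))
      map_add' := fun y z => by rw [map_add, map_add, map_add]
      map_smul' := fun r y => by
        rw [h, map_smul, h.symm]
        change θ.symm (θ r) • _ = r • _
        rw [θ.symm_apply_apply] }
  left_inv f := by
    ext x
    change s.symm (s (f (s.symm (s x)))) = f x
    rw [s.symm_apply_apply, s.symm_apply_apply]
  right_inv f := by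
    ext x
    change s (s.symm (f (s (s.symm x)))) = f x
    rw [s.apply_symm_apply, s.apply_symm_apply]
  map_mul' f g := by
    ext x
    change s (f (g (s.symm x))) = s (f (s.symm (s (g (s.symm x)))))
    rw [s.symm_apply_apply]
  map_add' f g := by
    ext x
    change s (f (s.symm x) + g (s.symm x)) = _
    rw [map_add]
    rfl

/-- finite endolength -/
theorem SL.finLen {θ : RingAut R} {s : N ≃+ M} (h : SL θ s)
    (hN : IsFiniteLength (Module.End R N) N) : IsFiniteLength (Module.End R M) M := by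
  let σ : Module.End R N →+* Module.End R M := (conjE h : Module.End R N →+* Module.End R M)
  have hσ : RingHomSurjective σ := ⟨(conjE h).surjective⟩
  let f : N →ₛₗ[σ] M :=
    { toFun := s
      map_add' := map_add s
      map_smul' := fun g x => by
        change s (g x) = s (g (s.symm (s x)))
        rw [s.symm_apply_apply] }
  have e : Submodule (Module.End R N) N ≃o Submodule (Module.End R M) M :=
    Submodule.orderIsoMapComapOfBijective f s.bijective
  rw [isFiniteLength_iff_isNoetherian_isArtinian] at hN ⊢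
  obtain ⟨h1, h2⟩ := hN
  constructor
  · rw [isNoetherian_iff'] at h1 ⊢
    exact e.symm.toOrderEmbedding.wellFoundedGT
  · have h3 : WellFoundedLT (Submodule (Module.End R N) N) := h2
    exact e.symm.toOrderEmbedding.wellFoundedLT

end

end Pool.Agent.Work.MP_edf6ee_al.AU
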