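import Pool.Agent.Work.MP_edf6ee_al.AU.Sem
import Pool.Agent.Work.MP_edf6ee_al.AU.Fld

/-!
# MP_edf6ee_al: a maximal element with infinitely many independent parameters
-/

set_option autoImplicit false
set_option linter.unusedSectionVars false

namespace Pool.Agent.Work.MP_edf6ee_al.AU

open scoped BigOperators Cardinal
open Pool.Agent.Work.MP_edf6ee_al.CP

/-- the relation used for branching -/
theorem br2 (hNU : S_NU) (hMR : S_MR) (hCL1 : S_CL1) (hCL2 : S_CL2)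
    (R : Type) [Ring R] (N : Type) [AddCommGroup N] [Module R N] (hG : Good R N)
    (hNM : NoMin R N) (φ : AddSubgroup N) (hφ : φ ∈ D1 R N) (hφ0 : φ ≠ ⊥) :
    ∃ B ∈ D2 R N, ∃ α ∈ D1 R N, ∃ β ∈ D1 R N, α ≤ φ ∧ β ≤ φ ∧ α ⊓ β = ⊥ ∧
      (∀ x y, (x, y) ∈ B → x ∈ α ∧ y ∈ β) ∧ (∀ x, (x, (0 : N)) ∈ B → x = 0) ∧
      (∀ y, ((0 : N), y) ∈ B → y = 0) ∧ ∃ b0 b1, (b0, b1) ∈ B ∧ b0 ≠ 0 := by
  obtain ⟨α, hα, β, hβ, hα0, hβ0, hαφ, hβφ, hαβ⟩ := hNU R N hG hNM φ hφ hφ0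
  obtain ⟨hbot, htop, hinf, hsup, hst⟩ := hCL1 R N
  obtain ⟨b0, hb0, hb0', P0⟩ := hMR R N hG ⊥ hbot α hα (fun h => hα0 (le_bot_iff.1 h))
  obtain ⟨b1, hb1, hb1', P1⟩ := hMR R N hG ⊥ hbot β hβ (fun h => hβ0 (le_bot_iff.1 h))
  obtain ⟨B0, hB0, h1, h2⟩ := hG.link b0 (fun h => hb0' (AddSubgroup.mem_bot.2 h)) ⊥ hbot b1 hb1'
  have h20 : (b0, (0 : N)) ∉ B0 := h2 0 (AddSubgroup.zero_mem _)
  obtain ⟨Kc, hKc, hcoker⟩ := (hCL2 R N B0 hB0).coker
  obtain ⟨Kk, hKk, hker⟩ := (hCL2 R N B0 hB0).ker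
  have hb1K : b1 ∉ Kc := by
    intro h
    have h3 := B0.sub_mem h1 ((hcoker _).1 h)
    exact h20 (by simpa using h3)
  obtain ⟨C1, hC1, hb1C1, hC1K⟩ := P1 Kc hKc hb1K
  obtain ⟨C0, hC0, hb0C0, hC0K⟩ := P0 Kk hKk (fun h => h20 ((hker _).1 h))
  obtain ⟨B, hB, hcut⟩ := (hCL2 R N B0 hB0).cut (C0 ⊓ α) (hinf _ hC0 _ hα) (C1 ⊓ β)
    (hinf _ hC1 _ hβ)
  refine ⟨B, hB, α, hα, β, hβ, hαφ, hβφ, hαβ, ?_, ?_, ?_, b0, b1, ?_, ?_⟩
  · intro x y hxy
    have h3 := (hcut _ _).1 hxy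
    exact ⟨h3.2.1.2, h3.2.2.2⟩
  · intro x hx
    have h3 := (hcut _ _).1 hx
    have h4 : x ∈ C0 ⊓ Kk := ⟨h3.2.1.1, (hker _).2 h3.1⟩
    exact AddSubgroup.mem_bot.1 (hC0K h4)
  · intro y hy
    have h3 := (hcut _ _).1 hy
    have h4 : y ∈ C1 ⊓ Kc := ⟨h3.2.2.1, (hcoker _).2 h3.1⟩
    exact AddSubgroup.mem_bot.1 (hC1K h4)
  · exact (hcut _ _).2 ⟨h1, ⟨hb0C0, hb0⟩, ⟨hb1C1, hb1⟩⟩
  · exact fun h => hb0' (AddSubgroup.mem_bot.2 h)

/-- a maximal element in a decreasing sequence -/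
theorem exists_maxEl_seq (hMAX : S_MAX) (hCL1 : S_CL1)
    (R : Type) [Ring R] (N : Type) [AddCommGroup N] [Module R N] (hG : Good R N)
    (W : ℕ → AddSubgroup N) (hW : ∀ n, W n ∈ D1 R N) (hne : ∀ n, W n ≠ ⊥)
    (hanti : ∀ n m, n ≤ m → W m ≤ W n) : ∃ b : N, (∀ n, b ∈ W n) ∧ MaxEl R N b := by
  obtain ⟨hbot, htop, hinf, hsup, hend⟩ := hCL1 R N
  have hT : TS R N {B | B ∈ D1 R N ∧ ∃ n, W n ≤ B} := by
    refine ⟨fun B hB => hB.1, ⟨htop, 0, le_top⟩, ?_, ?_⟩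
    · rintro A ⟨hA, n, hn⟩ B hB hAB
      exact ⟨hB, n, hn.trans hAB⟩
    · rintro A ⟨hA, n, hn⟩ B ⟨hB, m, hm⟩
      refine ⟨hinf A hA B hB, max n m, le_inf ?_ ?_⟩
      · exact (hanti n _ (le_max_left _ _)).trans hn
      · exact (hanti m _ (le_max_right _ _)).trans hm
  obtain ⟨p, hp1, hp2, hp3, hp4, hp5⟩ := hMAX R N {B | B ∈ D1 R N ∧ ∃ n, W n ≤ B} {⊥} hT
    (by intro B hB; rw [Set.mem_singleton_iff] at hB; rw [hB]; exact hbot)
    ⟨⊥, rfl⟩
    (by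
      intro α hα β hβ
      rw [Set.mem_singleton_iff] at hα hβ
      exact ⟨⊥, rfl, by rw [hα, hβ]; simp⟩)
    (by
      rintro ω hω ⟨_, n, hn⟩
      rw [Set.mem_singleton_iff] at hω
      rw [hω] at hn
      exact hne n (le_bot_iff.1 hn))
  have hpb : (⊥ : AddSubgroup N) ∉ p := hp4 ⊥ rfl
  obtain ⟨b, hb⟩ := hG.real p hp1 hp2 hpb
  refine ⟨b, fun n => ?_, ?_, ?_⟩
  · exact (hb _ (hW n)).1 (hp3 ⟨hW n, n, le_refl _⟩)
  · intro h0
    apply hpb
    rw [hb ⊥ hbot, h0]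
    exact AddSubgroup.zero_mem _
  · intro A hA hbA
    obtain ⟨φ, hφ, ω, hω, h⟩ := hp5 A hA (fun h => hbA ((hb A hA).1 h))
    rw [Set.mem_singleton_iff] at hω
    rw [hω] at h
    exact ⟨φ, hp1.sub hφ, (hb φ (hp1.sub hφ)).1 hφ, le_bot_iff.1 h⟩

section

variable {K : Type} [Field K] {K₀ : Subfield K} {R : Type} [Ring R] [Algebra K R]
  {N : Type} [AddCommGroup N] [Module R N] {act : (K ≃ₐ[K₀] K) →* RingAut R}

/-- a formula is fixed by the automorphisms which fix its coordinates -/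
theorem exists_coef (hact2 : ∀ r : R, ∃ c : Finset K, ∀ τ : K ≃ₐ[K₀] K, (∀ k ∈ c, τ k = k) →
    act τ r = r) {n : ℕ} (φ : PP R n) :
    ∃ c : Finset K, ∀ τ : K ≃ₐ[K₀] K, (∀ k ∈ c, τ k = k) → mapPP (act τ) φ = φ := by
  classical
  choose F hF using hact2
  obtain ⟨m, k, C, D⟩ := φ
  refine ⟨(Finset.univ.biUnion fun p : Fin m × Fin n => F (C p.1 p.2)) ∪
    (Finset.univ.biUnion fun p : Fin m × Fin k => F (D p.1 p.2)), fun τ hτ => ?_⟩
  unfold mapPP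
  congr 1
  · funext i j
    refine hF _ τ fun k hk => hτ k (Finset.mem_union_left _ ?_)
    exact Finset.mem_biUnion.2 ⟨(i, j), Finset.mem_univ _, hk⟩
  · funext i j
    refine hF _ τ fun k hk => hτ k (Finset.mem_union_right _ ?_)
    exact Finset.mem_biUnion.2 ⟨(i, j), Finset.mem_univ _, hk⟩

/-- a pp relation is preserved by the semilinear maps which fix its coordinates -/
theorem exists_coef_D2 (hact2 : ∀ r : R, ∃ c : Finset K, ∀ τ : K ≃ₐ[K₀] K, (∀ k ∈ c, τ k = k) →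
    act τ r = r) {B : AddSubgroup (N × N)} (hB : B ∈ D2 R N) :
    ∃ c : Finset K, ∀ (τ : K ≃ₐ[K₀] K) (s : N ≃+ N), SL (act τ) s → (∀ k ∈ c, τ k = k) →
      ∀ x y, (x, y) ∈ B → (s x, s y) ∈ B := by
  obtain ⟨φ, hφ⟩ := hB
  obtain ⟨c, hc⟩ := exists_coef hact2 φ
  refine ⟨c, fun τ s hs hτ x y hxy => ?_⟩
  have h1 := (hs.sat φ ![x, y]).2 ((hφ x y).1 hxy)
  rw [hc τ hτ] at h1
  rw [hφ]
  convert h1 using 1
  funext i
  fin_cases i <;> rfl

/-- one step of the tree -/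
theorem step (hNU : S_NU) (hMR : S_MR) (hCL1 : S_CL1) (hCL2 : S_CL2)
    (hact1 : ∀ (τ : K ≃ₐ[K₀] K) (k : K), act τ (algebraMap K R k) = algebraMap K R (τ k))
    (hact2 : ∀ r : R, ∃ c : Finset K, ∀ τ : K ≃ₐ[K₀] K, (∀ k ∈ c, τ k = k) → act τ r = r)
    (hG : Good R N) (hNM : NoMin R N) (W : AddSubgroup N) (hW : W ∈ D1 R N) (hW0 : W ≠ ⊥) :
    ∃ c : Finset K, ∀ l : K, ∃ W' ∈ D1 R N, W' ≠ ⊥ ∧ W' ≤ W ∧
      ∀ (τ : K ≃ₐ[K₀] K) (s : N ≃+ N), SL (act τ) s → (∀ k ∈ c, τ k = k) →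
        ∀ b ∈ W', b ≠ 0 → s b = b → τ l = l := by
  obtain ⟨B, hB, α, hα, β, hβ, hαφ, hβφ, hαβ, hBs, hx0, h0y, b0, b1, hbb, hb0⟩ :=
    br2 hNU hMR hCL1 hCL2 R N hG hNM W hW hW0
  obtain ⟨hbot, htop, hinf, hsup, hst⟩ := hCL1 R N
  obtain ⟨c, hc⟩ := exists_coef_D2 hact2 hB
  have hst' : ∀ l : K, ∀ A ∈ D1 R N, ∀ y ∈ A, algebraMap K R l • y ∈ A := fun l A hA y hy =>
    hst A hA { toFun := fun x => algebraMap K R l • x, map_add' := smul_add _,
               map_smul' := fun s x => by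
                simp only [RingHom.id_apply]
                rw [← mul_smul, ← mul_smul, Algebra.commutes] } y hy
  refine ⟨c, fun l => ?_⟩
  obtain ⟨V, hVD, hVm⟩ := (hCL2 R N B hB).graph (algebraMap K R l)
  refine ⟨V, hVD, ?_, ?_, ?_⟩
  · intro hbotV
    have h3 : b0 + algebraMap K R l • b1 ∈ V := (hVm _).2 ⟨b0, b1, hbb, rfl⟩
    rw [hbotV, AddSubgroup.mem_bot] at h3
    have h4 : b0 = - (algebraMap K R l • b1) := eq_neg_of_add_eq_zero_left h3
    have h5 : b0 ∈ β := by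
      rw [h4]
      exact β.neg_mem (hst' l β hβ b1 (hBs _ _ hbb).2)
    have h6 : b0 ∈ α ⊓ β := ⟨(hBs _ _ hbb).1, h5⟩
    rw [hαβ] at h6
    exact hb0 (AddSubgroup.mem_bot.1 h6)
  · intro z hz
    obtain ⟨x, y, hxy, rfl⟩ := (hVm z).1 hz
    exact W.add_mem (hαφ (hBs _ _ hxy).1) (hβφ (hst' l β hβ y (hBs _ _ hxy).2))
  · intro τ s hs hτ b hbV hb hsb
    by_contra hlm
    apply hb
    obtain ⟨x, y, hxy, hz1⟩ := (hVm b).1 hbV
    have hxy' := hc τ s hs hτ x y hxy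
    have hz2 : b = s x + algebraMap K R (τ l) • s y := by
      rw [← hsb, hz1, map_add, hs, hact1]
    have h3 := hBs _ _ hxy
    have h4 := hBs _ _ hxy'
    have h5 : x - s x = algebraMap K R (τ l) • s y - algebraMap K R l • y := by
      have h6 : x + algebraMap K R l • y = s x + algebraMap K R (τ l) • s y := hz1.symm.trans hz2
      have h7 : x - s x = (x + algebraMap K R l • y) - algebraMap K R l • y - s x := by abel
      rw [h7, h6]
      abel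
    have h6 : x - s x ∈ α ⊓ β := by
      refine ⟨α.sub_mem h3.1 h4.1, ?_⟩
      have : x - s x ∈ β := by
        rw [h5]
        exact β.sub_mem (hst' _ β hβ _ h4.2) (hst' _ β hβ _ h3.2)
      exact this
    rw [hαβ, AddSubgroup.mem_bot, sub_eq_zero] at h6
    have h7 : ((0 : N), y - s y) ∈ B := by
      have h8 := B.sub_mem hxy hxy'
      rw [← h6] at h8
      simpa using h8
    have h8 : y = s y := sub_eq_zero.1 (h0y _ h7)
    have h9 : algebraMap K R (l - τ l) • y = 0 := by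
      rw [map_sub, sub_smul]
      have : x + algebraMap K R l • y = x + algebraMap K R (τ l) • y := by
        conv_rhs => rw [h6, h8]
        rw [← hz2]
        exact hz1.symm
      exact sub_eq_zero.2 (add_left_cancel this)
    have h10 : y = 0 := by
      have hne : l - τ l ≠ 0 := sub_ne_zero.2 (Ne.symm hlm)
      have h11 := congrArg (fun z => algebraMap K R (l - τ l)⁻¹ • z) h9
      simp only [smul_zero] at h11
      rw [← mul_smul, ← map_mul, inv_mul_cancel₀ hne, map_one, one_smul] at h11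
      exact h11
    have h11 : x = 0 := hx0 x (by rw [← h10]; exact hxy)
    rw [hz1, h10, h11, smul_zero, add_zero]

/-- powers of semilinear maps -/
theorem SL.pow {τ : K ≃ₐ[K₀] K} {s : N ≃+ N} (h : SL (act τ) s) {b : N} (hb : s b = b) (m : ℕ) :
    ∃ t : N ≃+ N, SL (act (τ ^ m)) t ∧ t b = b := by
  induction m with
  | zero =>
    refine ⟨AddEquiv.refl N, fun r x => ?_, rfl⟩
    rw [pow_zero, map_one]
    rfl
  | succ m ih =>
    obtain ⟨t, ht, htb⟩ := ih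
    refine ⟨s.trans t, ?_, ?_⟩
    · rw [pow_succ, map_mul]
      exact h.trans ht
    · change t (s b) = b
      rw [hb, htb]

variable {X : Type} {x : X → K}

/-- the tree -/
theorem tree [Infinite X] (hNU : S_NU) (hMR : S_MR) (hCL1 : S_CL1) (hCL2 : S_CL2) (hMAX : S_MAX)
    (hx : IsTranscendenceBasis K₀ x)
    (hact1 : ∀ (τ : K ≃ₐ[K₀] K) (k : K), act τ (algebraMap K R k) = algebraMap K R (τ k))
    (hact2 : ∀ r : R, ∃ c : Finset K, ∀ τ : K ≃ₐ[K₀] K, (∀ k ∈ c, τ k = k) → act τ r = r)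
    (hG : Good R N) (hNM : NoMin R N) (u : X → X) (hu : Function.Injective u) :
    ∃ (b : N) (a : ℕ → X) (E : Set X), MaxEl R N b ∧ Function.Injective a ∧ E.Countable ∧
      (∀ n, u (a n) ∉ E) ∧ ∀ (τ : K ≃ₐ[K₀] K) (s : N ≃+ N), SL (act τ) s → s b = b →
        (∀ e ∈ E, τ (x e) = x e) → ∀ n, Per τ (x (u (a n))) := by
  classical
  have := hG.nt
  obtain ⟨hbot, htop, hinf, hsup, hend⟩ := hCL1 R N
  -- one step
  have hnxt : ∀ p : {W : AddSubgroup N // W ∈ D1 R N ∧ W ≠ ⊥} × Finset X,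
      ∃ (a : X) (S : Finset X) (W' : {W : AddSubgroup N // W ∈ D1 R N ∧ W ≠ ⊥}),
        p.2 ⊆ S ∧ u a ∉ S ∧ W'.1 ≤ p.1.1 ∧ ∀ (τ : K ≃ₐ[K₀] K) (s : N ≃+ N), SL (act τ) s →
          (∀ i ∈ S, Per τ (x i)) → ∀ b ∈ W'.1, b ≠ 0 → s b = b → Per τ (x (u a)) := by
    rintro ⟨⟨W, hW, hW0⟩, S₀⟩
    obtain ⟨c, hc⟩ := step hNU hMR hCL1 hCL2 hact1 hact2 hG hNM W hW hW0
    obtain ⟨S₁, hS₁⟩ := exists_supp_finset hx c
    obtain ⟨a, ha⟩ : ∃ a, u a ∉ S₀ ∪ S₁ := by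
      by_contra hcon
      push Not at hcon
      exact not_injective_infinite_finite (fun a : X => (⟨u a, hcon a⟩ : (S₀ ∪ S₁ : Finset X)))
        fun a a' h => hu (congrArg Subtype.val h)
    obtain ⟨W', hW', hW'0, hW'W, hP⟩ := hc (x (u a))
    refine ⟨a, S₀ ∪ S₁, ⟨W', hW', hW'0⟩, Finset.subset_union_left, ha, hW'W, ?_⟩
    intro τ s hs hper b hb hb0 hsb
    obtain ⟨m, hm, hfix⟩ := hS₁ τ fun i hi => hper i (Finset.mem_union_right _ hi)
    obtain ⟨t, ht, htb⟩ := hs.pow hsb m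
    exact ⟨m, hm, hP (τ ^ m) t ht hfix b hb hb0 htb⟩
  choose fa fS fW h1 h2 h3 h4 using hnxt
  let st : ℕ → {W : AddSubgroup N // W ∈ D1 R N ∧ W ≠ ⊥} × Finset X := fun n =>
    Nat.rec (⟨⊤, htop, top_ne_bot⟩, ∅) (fun _ p => (fW p, insert (u (fa p)) (fS p))) n
  have hst : ∀ n, st (n + 1) = (fW (st n), insert (u (fa (st n))) (fS (st n))) := fun n => rfl
  have hWanti : ∀ n m, n ≤ m → (st m).1.1 ≤ (st n).1.1 := by
    intro n m hnm
    induction hnm with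
    | refl => exact le_refl _
    | step h ih => exact le_trans (h3 (st _)) ih
  have hSmono : ∀ n m, n ≤ m → (st n).2 ⊆ (st m).2 := by
    intro n m hnm
    induction hnm with
    | refl => exact Finset.Subset.refl _
    | step h ih =>
      refine ih.trans ?_
      rw [hst]
      exact (h1 (st _)).trans (Finset.subset_insert _ _)
  have hmem : ∀ m n, m < n → u (fa (st m)) ∈ fS (st n) := by
    intro m n hmn
    apply h1 (st n)
    apply hSmono (m + 1) n hmn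
    rw [hst]
    exact Finset.mem_insert_self _ _
  have hSS : ∀ m n, m ≤ n → fS (st m) ⊆ fS (st n) := by
    intro m n hmn
    rcases Nat.eq_or_lt_of_le hmn with rfl | hlt
    · exact Finset.Subset.refl _
    · refine Finset.Subset.trans ?_ (h1 (st n))
      refine Finset.Subset.trans ?_ (hSmono (m + 1) n hlt)
      rw [hst]
      exact Finset.subset_insert _ _
  obtain ⟨b, hbW, hb⟩ := exists_maxEl_seq hMAX hCL1 R N hG (fun n => (st n).1.1)
    (fun n => (st n).1.2.1) (fun n => (st n).1.2.2) hWanti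
  refine ⟨b, fun n => fa (st n), (⋃ n, (fS (st n) : Set X)) \ Set.range fun n => u (fa (st n)), hb,
    ?_, ?_, ?_, ?_⟩
  · intro m n hmn
    by_contra hne
    rcases lt_or_gt_of_ne hne with h | h
    · apply h2 (st n)
      have := hmem m n h
      rwa [show fa (st m) = fa (st n) from hmn] at this
    · apply h2 (st m)
      have := hmem n m h
      rwa [← show fa (st m) = fa (st n) from hmn] at this
  · exact (Set.countable_iUnion fun n => (fS (st n)).countable_toSet).mono Set.sdiff_subset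
  · intro n h
    exact h.2 ⟨n, rfl⟩
  · intro τ s hs hsb hE n
    induction n using Nat.strong_induction_on with
    | _ n ih =>
      refine h4 (st n) τ s hs ?_ b (hbW (n + 1)) hb.1 hsb
      intro i hi
      by_cases hr : i ∈ Set.range fun n => u (fa (st n))
      · obtain ⟨m, rfl⟩ := hr
        apply ih m
        by_contra hmn
        exact h2 (st m) (hSS n m (not_lt.1 hmn) hi)
      · refine ⟨1, one_pos, ?_⟩
        rw [pow_one]
        exact hE i ⟨Set.mem_iUnion.2 ⟨n, hi⟩, hr⟩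

end

end Pool.Agent.Work.MP_edf6ee_al.AU
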